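import Mathlib
import Pool.Agent.Y627.SP.UnifC

/-! Monic approximation on the classes `D_{n,w}`: the approximation structure, values of integer
polynomials at the rational approximations, and the bound `|P(ζ)| ≥ c H(P)^{-w}`. -/

set_option autoImplicit false

open Polynomial Finset

namespace Pool.Agent.R330.MI

open Pool.Agent.W71 Pool.Agent.TH970.SE Pool.Agent.Y627.SP

/-- a sequence of rational approximations of exact order `w` with `p_k^n ≡ r_k mod q_k` -/
structure Reg (n : ℕ) (w κ θ ζ : ℝ) (p q r : ℕ → ℤ) (C : ℝ) : Prop where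
  C1 : 1 ≤ C
  q2 : ∀ k, 2 ≤ q k
  qtop : Filter.Tendsto (fun k => (q k : ℝ)) Filter.atTop Filter.atTop
  cop : ∀ k, IsCoprime (p k) (q k)
  near : ∀ k, |(p k : ℝ) / q k - ζ| ≤ 1
  up : ∀ k, |(p k : ℝ) / q k - ζ| ≤ C * (q k : ℝ) ^ (-(w + 1))
  lo : ∀ k, (q k : ℝ) ^ (-(w + 1)) ≤ C * |(p k : ℝ) / q k - ζ|
  grow : ∀ k, (q (k + 1) : ℝ) ≤ C * (q k : ℝ) ^ κ
  cong : ∀ k, q k ∣ p k ^ n - r k
  rlo : ∀ k, (q k : ℝ) ^ θ ≤ C * |(r k : ℝ)|
  rup : ∀ k, |(r k : ℝ)| ≤ C * (q k : ℝ) ^ θ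
  rhalf : ∀ k, 2 * |r k| ≤ q k

/-- homogenisation at a rational point -/
theorem homog (n : ℕ) (P : ℤ[X]) (hP : P.natDegree ≤ n) (p q : ℤ) (hq : q ≠ 0) :
    ∃ N : ℤ, (q : ℝ) ^ n * aeval ((p : ℝ) / q) P = N ∧ q ∣ N - P.coeff n * p ^ n := by
  have hqR : (q : ℝ) ≠ 0 := by exact_mod_cast hq
  refine ⟨∑ i ∈ range (n + 1), P.coeff i * p ^ i * q ^ (n - i), ?_, ?_⟩
  · rw [aeval_eq_sum_range' (by omega : P.natDegree < n + 1), Finset.mul_sum]
    push_cast
    refine sum_congr rfl fun i hi => ?_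
    have hi' : i ≤ n := by have := mem_range.1 hi; omega
    rw [zsmul_eq_mul, div_pow]
    have : (q : ℝ) ^ n = (q : ℝ) ^ (n - i) * (q : ℝ) ^ i := by
      rw [← pow_add, Nat.sub_add_cancel hi']
    rw [this]
    field_simp
  · rw [sum_range_succ, Nat.sub_self, pow_zero, mul_one, add_sub_cancel_right]
    refine Finset.dvd_sum fun i hi => ?_
    have hi' : i < n := mem_range.1 hi
    exact Dvd.dvd.mul_left (dvd_pow_self q (by omega)) _

/-- a nonzero value at a rational point is not small -/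
theorem val_ge (n : ℕ) (P : ℤ[X]) (hP : P.natDegree ≤ n) (p q : ℤ) (hq : 0 < q)
    (h : aeval ((p : ℝ) / q) P ≠ 0) : 1 ≤ (q : ℝ) ^ n * |aeval ((p : ℝ) / q) P| := by
  obtain ⟨N, hN, -⟩ := homog n P hP p q hq.ne'
  have hqR : (0 : ℝ) < q := by exact_mod_cast hq
  have hN0 : N ≠ 0 := by
    rintro rfl
    rw [Int.cast_zero] at hN
    rcases mul_eq_zero.1 hN with h1 | h1
    · exact (pow_pos hqR n).ne' h1
    · exact h h1
  have h2 : (1 : ℝ) ≤ |(N : ℝ)| := by exact_mod_cast Int.one_le_abs hN0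
  rw [← hN, abs_mul, abs_of_pos (pow_pos hqR n)] at h2
  exact h2

/-- the values of monic polynomials at `p / q` when `p^n ≡ r mod q` -/
theorem monic_val_ge (n : ℕ) (P : ℤ[X]) (hP : P.natDegree ≤ n) (hm : P.Monic) (p q r : ℤ)
    (hq : 2 ≤ q) (hcop : IsCoprime p q) (hr : q ∣ p ^ n - r) (hr2 : 2 * |r| ≤ q) :
    (|r| : ℝ) ≤ (q : ℝ) ^ n * |aeval ((p : ℝ) / q) P| := by
  have hqR : (2 : ℝ) ≤ q := by exact_mod_cast hq
  have hq0 : (0 : ℝ) < q := by linarith
  have hr2R : 2 * |(r : ℝ)| ≤ q := by exact_mod_cast hr2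
  rcases eq_or_lt_of_le hP with h1 | h1
  · obtain ⟨N, hN, hd⟩ := homog n P hP p q (by omega)
    have hc : P.coeff n = 1 := by rw [← h1]; exact hm.coeff_natDegree
    rw [hc, one_mul] at hd
    have hd2 : q ∣ N - r := by
      have := dvd_add hd hr
      rwa [sub_add_sub_cancel] at this
    have h3 : |r| ≤ |N| := by
      obtain ⟨t, ht⟩ := hd2
      rcases eq_or_ne t 0 with h0 | h0
      · rw [h0, mul_zero] at ht
        have : N = r := by linarith
        rw [this]
      · have h4 : q ≤ |q * t| := by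
          rw [abs_mul, abs_of_pos (by omega : (0 : ℤ) < q)]
          have := Int.one_le_abs h0
          nlinarith
        rw [← ht] at h4
        have h5 : |N - r| ≤ |N| + |r| := abs_sub _ _
        linarith
    have h4 : |(r : ℝ)| ≤ |(N : ℝ)| := by exact_mod_cast h3
    rw [← hN, abs_mul, abs_of_pos (pow_pos hq0 n)] at h4
    exact h4
  · -- smaller degree
    obtain ⟨N, hN, hd⟩ := homog P.natDegree P le_rfl p q (by omega)
    have hc : P.coeff P.natDegree = 1 := hm.coeff_natDegree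
    rw [hc, one_mul] at hd
    have hN0 : N ≠ 0 := by
      rintro rfl
      rw [zero_sub] at hd
      have h2 : q ∣ p ^ P.natDegree := (dvd_neg).1 hd
      have h3 : IsCoprime (p ^ P.natDegree) q := hcop.pow_left
      have h4 : IsUnit q := h3.isUnit_of_dvd' h2 dvd_rfl
      rcases Int.isUnit_iff.1 h4 with h5 | h5 <;> omega
    have h2 : (1 : ℝ) ≤ |(N : ℝ)| := by exact_mod_cast Int.one_le_abs hN0
    rw [← hN, abs_mul, abs_of_pos (pow_pos hq0 _)] at h2
    have h3 : (q : ℝ) * (q : ℝ) ^ P.natDegree ≤ (q : ℝ) ^ n := by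
      rw [← pow_succ']
      exact pow_le_pow_right₀ (by linarith) (by omega)
    calc |(r : ℝ)| ≤ q * 1 := by linarith [abs_nonneg (r : ℝ)]
      _ ≤ q * ((q : ℝ) ^ P.natDegree * |aeval ((p : ℝ) / q) P|) := by gcongr
      _ = ((q : ℝ) * (q : ℝ) ^ P.natDegree) * |aeval ((p : ℝ) / q) P| := by ring
      _ ≤ (q : ℝ) ^ n * |aeval ((p : ℝ) / q) P| := by gcongr

/-- Gelfond's inequality for a product -/
theorem gelfond2 (n : ℕ) (Q R : ℤ[X]) (hn : (Q * R).natDegree ≤ n) (hQR : Q * R ≠ 0) (i j : ℕ) :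
    |(Q.coeff i : ℝ)| * |(R.coeff j : ℝ)| ≤ 2 ^ n * ((n + 1) * hgt (Q * R)) := by
  have hQ : Q ≠ 0 := left_ne_zero_of_mul hQR
  have hR : R ≠ 0 := right_ne_zero_of_mul hQR
  have hH0 : (0 : ℝ) ≤ hgt (Q * R) := Nat.cast_nonneg _
  have hH : ∀ i, |((Q * R).coeff i : ℝ)| ≤ hgt (Q * R) := coeff_le_hgt_real _
  have hinj : Function.Injective (Int.castRingHom ℂ) := RingHom.injective_int _
  have key : ∀ (S : ℤ[X]) (i : ℕ), |(S.coeff i : ℝ)| ≤
      2 ^ S.natDegree * (S.map (Int.castRingHom ℂ)).mahlerMeasure := by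
    intro S i
    have h1 := norm_coeff_le_choose_mul_mahlerMeasure i (S.map (Int.castRingHom ℂ))
    rw [coeff_map, eq_intCast, Complex.norm_intCast, natDegree_map_eq_of_injective hinj] at h1
    refine h1.trans ?_
    have h2 : ((S.natDegree.choose i : ℕ) : ℝ) ≤ 2 ^ S.natDegree := by
      exact_mod_cast Nat.choose_le_two_pow _ _
    exact mul_le_mul_of_nonneg_right h2 (mahlerMeasure_nonneg _)
  have h1 : (Q.map (Int.castRingHom ℂ)).mahlerMeasure * (R.map (Int.castRingHom ℂ)).mahlerMeasure ≤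
      (n + 1) * hgt (Q * R) := by
    rw [← mahlerMeasure_mul, ← Polynomial.map_mul]
    refine (mahlerMeasure_le_sum_norm_coeff _).trans ?_
    rw [Polynomial.sum_def]
    have h2 : ((Q * R).map (Int.castRingHom ℂ)).support ⊆ Finset.range (n + 1) := by
      intro j hj
      rw [Finset.mem_range]
      have h3 := le_natDegree_of_mem_supp j hj
      rw [natDegree_map_eq_of_injective hinj] at h3
      omega
    calc ∑ j ∈ ((Q * R).map (Int.castRingHom ℂ)).support, ‖((Q * R).map (Int.castRingHom ℂ)).coeff j‖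
        ≤ ∑ j ∈ Finset.range (n + 1), ‖((Q * R).map (Int.castRingHom ℂ)).coeff j‖ :=
          Finset.sum_le_sum_of_subset_of_nonneg h2 fun _ _ _ => norm_nonneg _
      _ ≤ ∑ _j ∈ Finset.range (n + 1), (hgt (Q * R) : ℝ) := by
          refine Finset.sum_le_sum fun j _ => ?_
          rw [coeff_map, eq_intCast, Complex.norm_intCast]
          exact hH j
      _ = _ := by rw [Finset.sum_const, Finset.card_range, nsmul_eq_mul]; push_cast; ring
  have hdeg : Q.natDegree + R.natDegree ≤ n := by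
    rw [← natDegree_mul hQ hR]
    exact hn
  calc |(Q.coeff i : ℝ)| * |(R.coeff j : ℝ)|
      ≤ (2 ^ Q.natDegree * (Q.map (Int.castRingHom ℂ)).mahlerMeasure) *
        (2 ^ R.natDegree * (R.map (Int.castRingHom ℂ)).mahlerMeasure) := by
        apply mul_le_mul (key Q i) (key R j) (abs_nonneg _)
        exact mul_nonneg (by positivity) (mahlerMeasure_nonneg _)
    _ = 2 ^ (Q.natDegree + R.natDegree) * ((Q.map (Int.castRingHom ℂ)).mahlerMeasure *
        (R.map (Int.castRingHom ℂ)).mahlerMeasure) := by ring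
    _ ≤ 2 ^ n * ((n + 1) * hgt (Q * R)) := by
        apply mul_le_mul _ h1 _ (by positivity)
        · exact pow_le_pow_right₀ (by norm_num) hdeg
        · exact mul_nonneg (mahlerMeasure_nonneg _) (mahlerMeasure_nonneg _)

/-- the linear polynomial `q T - p` -/
noncomputable def Lk (p q : ℤ) : ℤ[X] := C q * X - C p

theorem Lk_coeff_one (p q : ℤ) : (Lk p q).coeff 1 = q := by
  rw [Lk, coeff_sub, coeff_C_mul, coeff_X_one, coeff_C, if_neg one_ne_zero, mul_one, sub_zero]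

theorem Lk_coeff_zero (p q : ℤ) : (Lk p q).coeff 0 = -p := by
  rw [Lk, coeff_sub, coeff_C_mul, coeff_X_zero, coeff_C_zero, mul_zero, zero_sub]

theorem Lk_coeff_ge (p q : ℤ) (i : ℕ) (hi : 2 ≤ i) : (Lk p q).coeff i = 0 := by
  rw [Lk, coeff_sub, coeff_C_mul, coeff_X_of_ne_one (by omega), coeff_C, if_neg (by omega),
    mul_zero, sub_zero]

theorem Lk_natDegree (p q : ℤ) (hq : q ≠ 0) : (Lk p q).natDegree = 1 := by
  apply natDegree_eq_of_le_of_coeff_ne_zero
  · rw [natDegree_le_iff_coeff_eq_zero]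
    intro N hN
    exact Lk_coeff_ge p q N hN
  · rw [Lk_coeff_one]; exact hq

theorem Lk_aeval (p q : ℤ) (x : ℝ) : aeval x (Lk p q) = q * x - p := by
  simp [Lk]

theorem Lk_ne (p q : ℤ) (hq : q ≠ 0) : Lk p q ≠ 0 := by
  intro h
  have := Lk_coeff_one p q
  rw [h, coeff_zero] at this
  exact hq this.symm

theorem Lk_irr (p q : ℤ) (hq : q ≠ 0) (hcop : IsCoprime p q) : Irreducible (Lk p q) := by
  have hprim : (Lk p q).IsPrimitive := by
    intro c hc
    have h1 : c ∣ q := by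
      have := (C_dvd_iff_dvd_coeff c _).1 hc 1
      rwa [Lk_coeff_one] at this
    have h0 : c ∣ p := by
      have := (C_dvd_iff_dvd_coeff c _).1 hc 0
      rwa [Lk_coeff_zero, dvd_neg] at this
    exact hcop.isUnit_of_dvd' h0 h1
  rw [IsPrimitive.Int.irreducible_iff_irreducible_map_cast hprim]
  apply irreducible_of_degree_eq_one
  rw [degree_map_eq_of_injective (RingHom.injective_int _), degree_eq_natDegree (Lk_ne p q hq),
    Lk_natDegree p q hq]
  rfl

/-- an integer polynomial vanishing at `p / q` is divisible by `q T - p` -/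
theorem Lk_dvd (p q : ℤ) (hq : q ≠ 0) (hcop : IsCoprime p q) (P : ℤ[X])
    (h : aeval ((p : ℝ) / q) P = 0) : Lk p q ∣ P := by
  have hqR : (q : ℝ) ≠ 0 := by exact_mod_cast hq
  refine dvd_of_root _ P _ (Lk_irr p q hq hcop) ?_ h
  rw [Lk_aeval]
  field_simp
  ring

variable {n : ℕ} {w κ θ ζ C : ℝ} {p q r : ℕ → ℤ}

theorem Reg.q0 (h : Reg n w κ θ ζ p q r C) (k : ℕ) : (2 : ℝ) ≤ q k := by
  exact_mod_cast h.q2 k

theorem Reg.abs_le (h : Reg n w κ θ ζ p q r C) (k : ℕ) : |(p k : ℝ) / q k| ≤ |ζ| + 1 := by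
  have h1 := h.near k
  have h2 := abs_sub_abs_le_abs_sub ((p k : ℝ) / q k) ζ
  linarith

/-- difference of the values at `ζ` and `p_k / q_k` -/
theorem Reg.diff (h : Reg n w κ θ ζ p q r C) (P : ℤ[X]) (hP : P.natDegree ≤ n) (k : ℕ) :
    |aeval ((p k : ℝ) / q k) P - aeval ζ P| ≤
      (hgt P : ℝ) * (((n : ℝ) + 1) ^ 2 * (|ζ| + 1) ^ n) * (C * (q k : ℝ) ^ (-(w + 1))) := by
  have hA : 1 ≤ |ζ| + 1 := by linarith [abs_nonneg ζ]
  refine (val_diff n P hP (hgt P) (Nat.cast_nonneg _) (coeff_le_hgt_real P) _ _ (|ζ| + 1) hA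
    (h.abs_le k) (by linarith)).trans ?_
  have := h.up k
  gcongr

/-- value of the linear polynomial at `ζ` -/
theorem Reg.lin_lo (h : Reg n w κ θ ζ p q r C) (k : ℕ) :
    (q k : ℝ) ^ (-w) ≤ C * |aeval ζ (Lk (p k) (q k))| := by
  have hq : (0 : ℝ) < q k := by linarith [h.q0 k]
  have h1 := h.lo k
  have h2 : aeval ζ (Lk (p k) (q k)) = -(q k * ((p k : ℝ) / q k - ζ)) := by
    rw [Lk_aeval]; field_simp; ring
  rw [h2, abs_neg, abs_mul, abs_of_pos hq]
  calc (q k : ℝ) ^ (-w) = q k * (q k : ℝ) ^ (-(w + 1)) := by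
        have h3 : (q k : ℝ) ^ (-w) = (q k : ℝ) ^ (1 : ℝ) * (q k : ℝ) ^ (-(w + 1)) := by
          rw [← Real.rpow_add hq]; congr 1; ring
        rw [h3, Real.rpow_one]
    _ ≤ q k * (C * |(p k : ℝ) / q k - ζ|) := by gcongr
    _ = _ := by ring

theorem Reg.lin_up (h : Reg n w κ θ ζ p q r C) (k : ℕ) :
    |aeval ζ (Lk (p k) (q k))| ≤ C * (q k : ℝ) ^ (-w) := by
  have hq : (0 : ℝ) < q k := by linarith [h.q0 k]
  have h1 := h.up k
  have h2 : aeval ζ (Lk (p k) (q k)) = -(q k * ((p k : ℝ) / q k - ζ)) := by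
    rw [Lk_aeval]; field_simp; ring
  rw [h2, abs_neg, abs_mul, abs_of_pos hq]
  calc q k * |(p k : ℝ) / q k - ζ| ≤ q k * (C * (q k : ℝ) ^ (-(w + 1))) := by gcongr
    _ = C * ((q k : ℝ) ^ (1 : ℝ) * (q k : ℝ) ^ (-(w + 1))) := by rw [Real.rpow_one]; ring
    _ = C * (q k : ℝ) ^ (-w) := by rw [← Real.rpow_add hq]; congr 2; ring

/-- the fundamental lower bound for the values of integer polynomials at `ζ` -/
theorem Reg.star (h : Reg n w κ θ ζ p q r C) (hw : (n : ℝ) ≤ w) (hw0 : 0 ≤ w)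
    (hκ : κ * n ≤ w * (w - n + 1)) (d : ℕ) (hd : d ≤ n) :
    ∃ c : ℝ, 0 < c ∧ ∀ P : ℤ[X], P ≠ 0 → P.natDegree ≤ d →
      c * (hgt P : ℝ) ^ (-w) ≤ |aeval ζ P| := by
  have hC1 := h.C1
  have hC0 : 0 < C := by linarith
  induction d with
  | zero =>
    refine ⟨1, one_pos, fun P hP hPd => ?_⟩
    obtain ⟨c, rfl⟩ := natDegree_eq_zero.1 (Nat.le_zero.1 hPd)
    have hc : c ≠ 0 := by rintro rfl; simp at hP
    have h1 : (1 : ℝ) ≤ hgt (Polynomial.C c : ℤ[X]) := by exact_mod_cast hgt_pos hP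
    have h2 : ((hgt (Polynomial.C c : ℤ[X]) : ℕ) : ℝ) ^ (-w) ≤ 1 :=
      Real.rpow_le_one_of_one_le_of_nonpos h1 (by linarith)
    have h3 : (1 : ℝ) ≤ |(c : ℝ)| := by exact_mod_cast Int.one_le_abs hc
    rw [aeval_C, one_mul]
    simpa using h2.trans h3
  | succ d ih =>
    obtain ⟨c, hc0, hc⟩ := ih (by omega)
    set g : ℝ := w - n + 1 with hg
    have hg1 : 1 ≤ g := by rw [hg]; linarith
    set K : ℝ := ((n : ℝ) + 1) ^ 2 * (|ζ| + 1) ^ n with hK
    have hK1 : 1 ≤ K := by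
      have h1 : (1 : ℝ) ≤ ((n : ℝ) + 1) ^ 2 := one_le_pow₀ (by linarith [(Nat.cast_nonneg n : (0 : ℝ) ≤ n)])
      have h2 : (1 : ℝ) ≤ (|ζ| + 1) ^ n := one_le_pow₀ (by linarith [abs_nonneg ζ])
      rw [hK]; exact one_le_mul_of_one_le_of_one_le h1 h2
    set T : ℝ := 2 * K * C with hT
    have hT1 : 1 ≤ T := by rw [hT]; nlinarith
    have hT0 : 0 < T := by linarith
    set G : ℝ := 2 ^ n * (n + 1) with hG
    have hG0 : 0 < G := by rw [hG]; positivity
    set c' : ℝ := min (1 / 2 * ((q 0 : ℝ) ^ n)⁻¹) (min (1 / 2 * (C ^ n * T ^ w)⁻¹)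
      (c * C⁻¹ * (G ^ w)⁻¹)) with hc'
    have hq00 : (0 : ℝ) < q 0 := by linarith [h.q0 0]
    refine ⟨c', by rw [hc']; positivity, fun P hP hPd => ?_⟩
    have hH1 : (1 : ℝ) ≤ hgt P := by exact_mod_cast hgt_pos hP
    set H : ℝ := (hgt P : ℝ) with hH
    have hH0 : 0 < H := by linarith
    have hex : ∃ k, H * T ≤ (q k : ℝ) ^ g := by
      have t1 : Filter.Tendsto (fun k => (q k : ℝ) ^ g) Filter.atTop Filter.atTop :=
        (tendsto_rpow_atTop (by linarith)).comp h.qtop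
      exact (t1.eventually_ge_atTop (H * T)).exists
    classical
    set k := Nat.find hex with hk
    have hk1 : H * T ≤ (q k : ℝ) ^ g := Nat.find_spec hex
    have hqk : (0 : ℝ) < q k := by linarith [h.q0 k]
    have hHw : H ^ (-w) ≤ 1 := Real.rpow_le_one_of_one_le_of_nonpos hH1 (by linarith)
    have hHw0 : 0 < H ^ (-w) := by positivity
    by_cases h0 : aeval ((p k : ℝ) / q k) P = 0
    · -- divisible by the linear polynomial
      have hqk0 : q k ≠ 0 := by have := h.q2 k; omega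
      obtain ⟨R, hR⟩ := Lk_dvd (p k) (q k) hqk0 (h.cop k) P h0
      have hR0 : R ≠ 0 := by rintro rfl; rw [mul_zero] at hR; exact hP hR
      have hdeg : P.natDegree = 1 + R.natDegree := by
        rw [hR, natDegree_mul (Lk_ne _ _ hqk0) hR0, Lk_natDegree _ _ hqk0]
      have e1 := hc R hR0 (by omega)
      have hR1 : (1 : ℝ) ≤ hgt R := by exact_mod_cast hgt_pos hR0
      have e2 : (q k : ℝ) * hgt R ≤ G * H := by
        have h1 : ∀ j, |((R.coeff j : ℤ) : ℝ)| ≤ G * H / q k := by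
          intro j
          have h2 := gelfond2 n (Lk (p k) (q k)) R (by rw [← hR]; omega) (by rwa [← hR]) 1 j
          rw [← hR, Lk_coeff_one, abs_of_pos hqk, ← hH] at h2
          rw [le_div_iff₀ hqk, hG]
          linarith
        have h3 := hgt_le_real (P := R) (G * H / q k) (by positivity) h1
        rw [le_div_iff₀ hqk] at h3
        linarith
      have e3 := h.lin_lo k
      have e4 : |aeval ζ P| = |aeval ζ (Lk (p k) (q k))| * |aeval ζ R| := by
        rw [hR, map_mul, abs_mul]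
      rw [e4]
      have e5 : C⁻¹ * (q k : ℝ) ^ (-w) ≤ |aeval ζ (Lk (p k) (q k))| := by
        rw [inv_mul_le_iff₀ hC0]; exact e3
      calc c' * H ^ (-w) ≤ (c * C⁻¹ * (G ^ w)⁻¹) * H ^ (-w) := by
            gcongr
            exact (min_le_right _ _).trans (min_le_right _ _)
        _ = (c * C⁻¹) * (G * H) ^ (-w) := by
            rw [Real.mul_rpow hG0.le hH0.le, Real.rpow_neg hG0.le]; ring
        _ ≤ (c * C⁻¹) * ((q k : ℝ) * hgt R) ^ (-w) := by
            apply mul_le_mul_of_nonneg_left _ (by positivity)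
            exact Real.rpow_le_rpow_of_nonpos (by positivity) e2 (by linarith)
        _ = (C⁻¹ * (q k : ℝ) ^ (-w)) * (c * (hgt R : ℝ) ^ (-w)) := by
            rw [Real.mul_rpow hqk.le (by positivity)]; ring
        _ ≤ _ := mul_le_mul e5 e1 (by positivity) (abs_nonneg _)
    · have e1 := val_ge n P (by omega) (p k) (q k) (by have := h.q2 k; omega) h0
      have e2 := h.diff P (by omega) k
      rw [← hK, ← hH] at e2
      have hqn : 0 < (q k : ℝ) ^ n := by positivity
      have e3 : (q k : ℝ) ^ n * (H * K * (C * (q k : ℝ) ^ (-(w + 1)))) ≤ 1 / 2 := by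
        have q1 : (q k : ℝ) ^ n * (q k : ℝ) ^ (-(w + 1)) = ((q k : ℝ) ^ g)⁻¹ := by
          rw [← Real.rpow_natCast, ← Real.rpow_add hqk, ← Real.rpow_neg hqk.le]
          congr 1; rw [hg]; ring
        have q2 : (q k : ℝ) ^ n * (H * K * (C * (q k : ℝ) ^ (-(w + 1)))) =
            (H * T) / (q k : ℝ) ^ g / 2 := by
          calc _ = (H * K * C) * ((q k : ℝ) ^ n * (q k : ℝ) ^ (-(w + 1))) := by ring
            _ = _ := by rw [q1, hT]; field_simp
        rw [q2]
        have q3 : (H * T) / (q k : ℝ) ^ g ≤ 1 := by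
          rw [div_le_one (by positivity)]; exact hk1
        linarith
      have e4 : 1 / 2 ≤ (q k : ℝ) ^ n * |aeval ζ P| := by
        have t1 : |aeval ((p k : ℝ) / q k) P| ≤ |aeval ζ P| +
            H * K * (C * (q k : ℝ) ^ (-(w + 1))) := by
          have := abs_sub_abs_le_abs_sub (aeval ((p k : ℝ) / q k) P) (aeval ζ P)
          linarith
        have t2 := mul_le_mul_of_nonneg_left t1 hqn.le
        rw [mul_add] at t2
        linarith
      have e5 : 1 / 2 * ((q k : ℝ) ^ n)⁻¹ ≤ |aeval ζ P| := by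
        rw [← div_eq_mul_inv, div_le_iff₀ hqn]; linarith
      refine le_trans ?_ e5
      rcases Nat.eq_zero_or_pos k with hk0 | hk0
      · rw [hk0]
        calc c' * H ^ (-w) ≤ (1 / 2 * ((q 0 : ℝ) ^ n)⁻¹) * 1 := by
              apply mul_le_mul (min_le_left _ _) hHw hHw0.le (by positivity)
          _ = _ := mul_one _
      · obtain ⟨j, hj⟩ : ∃ j, k = j + 1 := ⟨k - 1, by omega⟩
        have hjk : ¬ (H * T ≤ (q j : ℝ) ^ g) := Nat.find_min hex (by omega)
        push Not at hjk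
        have hqj : (2 : ℝ) ≤ q j := h.q0 j
        have hqj0 : (0 : ℝ) < q j := by linarith
        have g1 := h.grow j
        rw [← hj] at g1
        have g2 : (q k : ℝ) ^ n ≤ C ^ n * (T ^ w * H ^ w) := by
          calc (q k : ℝ) ^ n ≤ (C * (q j : ℝ) ^ κ) ^ n := pow_le_pow_left₀ hqk.le g1 n
            _ = C ^ n * (q j : ℝ) ^ (κ * n) := by
                rw [mul_pow, Real.rpow_mul hqj0.le, Real.rpow_natCast]
            _ ≤ C ^ n * (q j : ℝ) ^ (g * w) := by
                apply mul_le_mul_of_nonneg_left _ (by positivity)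
                apply Real.rpow_le_rpow_of_exponent_le (by linarith)
                rw [hg]; linarith
            _ = C ^ n * ((q j : ℝ) ^ g) ^ w := by rw [Real.rpow_mul hqj0.le]
            _ ≤ C ^ n * (H * T) ^ w := by
                gcongr
            _ = C ^ n * (T ^ w * H ^ w) := by rw [Real.mul_rpow hH0.le hT0.le]; ring
        calc c' * H ^ (-w) ≤ (1 / 2 * (C ^ n * T ^ w)⁻¹) * H ^ (-w) := by
              gcongr
              exact (min_le_right _ _).trans (min_le_left _ _)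
          _ = 1 / 2 * (C ^ n * (T ^ w * H ^ w))⁻¹ := by
              rw [Real.rpow_neg hH0.le, mul_inv, mul_inv, mul_inv]; ring
          _ ≤ 1 / 2 * ((q k : ℝ) ^ n)⁻¹ := by
              gcongr

end Pool.Agent.R330.MI
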