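import Mathlib
import Pool.Agent.R330.MI.Basic

/-! Monic approximation on the classes `D_{n,w}`: the upper bounds. -/

set_option autoImplicit false

open Polynomial Finset

namespace Pool.Agent.R330.MI

open Pool.Agent.W71 Pool.Agent.TH970.SE Pool.Agent.Y627.SP

theorem norm_pow_sub (x y : ℂ) (A : ℝ) (hx : ‖x‖ ≤ A) (hy : ‖y‖ ≤ A) (i : ℕ) :
    ‖x ^ (i + 1) - y ^ (i + 1)‖ ≤ (i + 1) * A ^ i * ‖x - y‖ := by
  have hA : 0 ≤ A := (norm_nonneg x).trans hx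
  induction i with
  | zero => simp
  | succ i ih =>
    have h1 : x ^ (i + 1 + 1) - y ^ (i + 1 + 1) = x * (x ^ (i + 1) - y ^ (i + 1)) +
        (x - y) * y ^ (i + 1) := by ring
    rw [h1]
    calc ‖x * (x ^ (i + 1) - y ^ (i + 1)) + (x - y) * y ^ (i + 1)‖
        ≤ ‖x‖ * ‖x ^ (i + 1) - y ^ (i + 1)‖ + ‖x - y‖ * ‖y‖ ^ (i + 1) := by
          refine (norm_add_le _ _).trans ?_
          rw [norm_mul, norm_mul, norm_pow]
      _ ≤ A * ((i + 1) * A ^ i * ‖x - y‖) + ‖x - y‖ * A ^ (i + 1) := by gcongr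
      _ = ((i + 1 : ℕ) + 1) * A ^ (i + 1) * ‖x - y‖ := by push_cast; ring

/-- differences of the values of a polynomial at complex points -/
theorem cval_diff (n : ℕ) (P : ℤ[X]) (hP : P.natDegree ≤ n) (x y : ℂ) (A : ℝ) (hA : 1 ≤ A)
    (hx : ‖x‖ ≤ A) (hy : ‖y‖ ≤ A) :
    ‖aeval x P - aeval y P‖ ≤ (hgt P : ℝ) * (((n : ℝ) + 1) ^ 2 * A ^ n) * ‖x - y‖ := by
  have hH : (0 : ℝ) ≤ hgt P := Nat.cast_nonneg _
  rw [aeval_eq_sum_range' (by omega : P.natDegree < n + 1),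
    aeval_eq_sum_range' (by omega : P.natDegree < n + 1), ← sum_sub_distrib]
  have hterm : ∀ i ∈ range (n + 1), ‖P.coeff i • x ^ i - P.coeff i • y ^ i‖ ≤
      (hgt P : ℝ) * (((n : ℝ) + 1) * A ^ n * ‖x - y‖) := by
    intro i hi
    have hin : i ≤ n := by have := mem_range.1 hi; omega
    rw [← smul_sub, zsmul_eq_mul, norm_mul, Complex.norm_intCast]
    refine mul_le_mul (coeff_le_hgt_real P i) ?_ (norm_nonneg _) hH
    rcases Nat.eq_zero_or_pos i with rfl | hi0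
    · simp; positivity
    · obtain ⟨j, rfl⟩ : ∃ j, i = j + 1 := ⟨i - 1, by omega⟩
      refine (norm_pow_sub x y A hx hy j).trans ?_
      have h1 : (j : ℝ) + 1 ≤ n + 1 := by
        have : (j : ℝ) ≤ n := by exact_mod_cast (by omega : j ≤ n)
        linarith
      have h2 : A ^ j ≤ A ^ n := pow_le_pow_right₀ hA (by omega)
      gcongr
  calc ‖∑ i ∈ range (n + 1), (P.coeff i • x ^ i - P.coeff i • y ^ i)‖
      ≤ ∑ i ∈ range (n + 1), ‖P.coeff i • x ^ i - P.coeff i • y ^ i‖ := norm_sum_le _ _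
    _ ≤ ∑ _i ∈ range (n + 1), (hgt P : ℝ) * (((n : ℝ) + 1) * A ^ n * ‖x - y‖) :=
        sum_le_sum hterm
    _ = (hgt P : ℝ) * (((n : ℝ) + 1) ^ 2 * A ^ n) * ‖x - y‖ := by
        rw [sum_const, card_range, nsmul_eq_mul]; push_cast; ring

theorem cval_small (n : ℕ) (P : ℤ[X]) (hP : P.natDegree ≤ n) (ζ : ℝ) (α : ℂ)
    (hα : aeval α P = 0) (h1 : ‖(ζ : ℂ) - α‖ ≤ 1) :
    |aeval ζ P| ≤ (hgt P : ℝ) * (((n : ℝ) + 1) ^ 2 * (|ζ| + 1) ^ n) * ‖(ζ : ℂ) - α‖ := by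
  have hζ : ‖(ζ : ℂ)‖ = |ζ| := by rw [Complex.norm_real, Real.norm_eq_abs]
  have h2 := cval_diff n P hP (ζ : ℂ) α (|ζ| + 1) (by linarith [abs_nonneg ζ])
    (by rw [hζ]; linarith) (by
      have := norm_sub_norm_le α (ζ : ℂ)
      rw [norm_sub_rev, hζ] at this
      linarith)
  rw [hα, sub_zero] at h2
  have h3 : aeval (ζ : ℂ) P = ((aeval ζ P : ℝ) : ℂ) := by
    have := aeval_algebraMap_apply ℂ ζ P
    simpa using this
  rwa [h3, Complex.norm_real, Real.norm_eq_abs] at h2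

variable {n : ℕ} {w κ θ ζ C : ℝ} {p q r : ℕ → ℤ}

theorem Reg.monic_lo (h : Reg n w κ θ ζ p q r C) (k : ℕ) (P : ℤ[X]) (hP : P.natDegree ≤ n)
    (hm : P.Monic) : (q k : ℝ) ^ (-((n : ℝ) - θ)) ≤ C * |aeval ((p k : ℝ) / q k) P| := by
  have hC0 : 0 < C := by linarith [h.C1]
  have hq : (0 : ℝ) < q k := by linarith [h.q0 k]
  have h1 := monic_val_ge n P hP hm (p k) (q k) (r k) (h.q2 k) (h.cop k) (h.cong k) (h.rhalf k)
  have h2 := h.rlo k
  have h3 : (q k : ℝ) ^ (-((n : ℝ) - θ)) * (q k : ℝ) ^ n = (q k : ℝ) ^ θ := by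
    rw [← Real.rpow_natCast, ← Real.rpow_add hq]; congr 1; ring
  have hqn : 0 < (q k : ℝ) ^ n := by positivity
  have h4 : (q k : ℝ) ^ (-((n : ℝ) - θ)) * (q k : ℝ) ^ n ≤
      (C * |aeval ((p k : ℝ) / q k) P|) * (q k : ℝ) ^ n := by
    rw [h3]
    calc (q k : ℝ) ^ θ ≤ C * |(r k : ℝ)| := h2
      _ ≤ C * ((q k : ℝ) ^ n * |aeval ((p k : ℝ) / q k) P|) := by gcongr
      _ = _ := by ring
  exact le_of_mul_le_mul_right h4 hqn

/-- monic polynomials take large values at `ζ`, for suitable heights -/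
theorem Reg.unif_upper (h : Reg n w κ θ ζ p q r C) (v : ℝ) (_hv : 0 < v)
    (he : 0 < w + 1 - (n - θ)) (hev : (n : ℝ) - θ < v * (w + 1 - (n - θ))) (X₀ : ℝ) :
    ∃ X : ℝ, X₀ ≤ X ∧ 1 ≤ X ∧ ∀ P : ℤ[X], P.Monic → P.natDegree ≤ n → (hgt P : ℝ) ≤ X →
      X ^ (-v) < |aeval ζ P| := by
  have hC1 := h.C1
  have hC0 : 0 < C := by linarith
  set e : ℝ := (n : ℝ) - θ with hedef
  set g : ℝ := w + 1 - e with hg
  set K : ℝ := ((n : ℝ) + 1) ^ 2 * (|ζ| + 1) ^ n with hK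
  have hK1 : 1 ≤ K := by
    have h1 : (1 : ℝ) ≤ ((n : ℝ) + 1) ^ 2 :=
      one_le_pow₀ (by linarith [(Nat.cast_nonneg n : (0 : ℝ) ≤ n)])
    have h2 : (1 : ℝ) ≤ (|ζ| + 1) ^ n := one_le_pow₀ (by linarith [abs_nonneg ζ])
    rw [hK]; exact one_le_mul_of_one_le_of_one_le h1 h2
  set τ : ℝ := 1 / (2 * K * C * C) with hτ
  have hτ0 : 0 < τ := by rw [hτ]; positivity
  have hev2 : ∀ᶠ H : ℝ in Filter.atTop, 1 ≤ H ∧ X₀ ≤ τ * H ^ g ∧ 1 ≤ τ * H ^ g ∧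
      2 * C * τ ^ (-v) < H ^ (v * g - e) := by
    have t1 : Filter.Tendsto (fun H : ℝ => τ * H ^ g) Filter.atTop Filter.atTop :=
      (tendsto_rpow_atTop he).const_mul_atTop hτ0
    have t2 : Filter.Tendsto (fun H : ℝ => H ^ (v * g - e)) Filter.atTop Filter.atTop :=
      tendsto_rpow_atTop (by linarith)
    filter_upwards [Filter.eventually_ge_atTop (1 : ℝ), t1.eventually_ge_atTop X₀,
      t1.eventually_ge_atTop 1, t2.eventually_gt_atTop _] with H h1 h3 h4 h5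
    exact ⟨h1, h3, h4, h5⟩
  obtain ⟨k, g1, g3, g4, g5⟩ := (h.qtop.eventually hev2).exists
  set H : ℝ := (q k : ℝ) with hH
  have hH0 : 0 < H := by linarith
  set X : ℝ := τ * H ^ g with hX
  have hX0 : 0 < X := by linarith
  refine ⟨X, g3, g4, fun P hPm hPn hPX => ?_⟩
  have e1 := h.monic_lo k P hPn hPm
  rw [← hedef, ← hH] at e1
  have e2 := h.diff P hPn k
  rw [← hK, ← hH] at e2
  have e3 : C * ((hgt P : ℝ) * K * (C * H ^ (-(w + 1)))) ≤ H ^ (-e) / 2 := by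
    calc C * ((hgt P : ℝ) * K * (C * H ^ (-(w + 1)))) ≤ C * (X * K * (C * H ^ (-(w + 1)))) := by
          gcongr
      _ = (τ * (K * C * C)) * (H ^ g * H ^ (-(w + 1))) := by rw [hX]; ring
      _ = (1 / 2) * (H ^ g * H ^ (-(w + 1))) := by
          congr 1; rw [hτ]; field_simp
      _ = (1 / 2) * H ^ (-e) := by
          rw [← Real.rpow_add hH0]; congr 2; rw [hg]; ring
      _ = _ := by ring
  have e4 : H ^ (-e) / 2 ≤ C * |aeval ζ P| := by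
    have t1 : |aeval ((p k : ℝ) / H) P| ≤ |aeval ζ P| +
        (hgt P : ℝ) * K * (C * H ^ (-(w + 1))) := by
      have := abs_sub_abs_le_abs_sub (aeval ((p k : ℝ) / H) P) (aeval ζ P)
      linarith
    have t2 := mul_le_mul_of_nonneg_left t1 hC0.le
    rw [mul_add] at t2
    linarith
  have e5 : X ^ (-v) = τ ^ (-v) * H ^ (-(v * g)) := by
    rw [hX, Real.mul_rpow hτ0.le (by positivity), ← Real.rpow_mul hH0.le]
    congr 2; ring
  have e6 : 2 * C * X ^ (-v) < H ^ (-e) := by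
    calc 2 * C * X ^ (-v) = (2 * C * τ ^ (-v)) * H ^ (-(v * g)) := by rw [e5]; ring
      _ < H ^ (v * g - e) * H ^ (-(v * g)) := by
          apply mul_lt_mul_of_pos_right g5 (by positivity)
      _ = H ^ (-e) := by rw [← Real.rpow_add hH0]; congr 1; ring
  have e7 : C * X ^ (-v) < C * |aeval ζ P| := by linarith
  exact lt_of_mul_lt_mul_left e7 hC0.le

/-- the starred version -/
theorem Reg.unif_upper_star (h : Reg n w κ θ ζ p q r C) (v : ℝ) (hθ : θ ≤ n)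
    (he : 0 < w + 1 - (n - θ)) (hev : (n : ℝ) - θ < v * (w + 1 - (n - θ))) (X₀ : ℝ) :
    ∃ X : ℝ, X₀ ≤ X ∧ 1 ≤ X ∧ ∀ (α : ℂ) (P : ℤ[X]), P.Monic → P.natDegree ≤ n → aeval α P = 0 →
      (hgt P : ℝ) ≤ X → (hgt P : ℝ)⁻¹ * X ^ (-v) < ‖(ζ : ℂ) - α‖ := by
  set e : ℝ := (n : ℝ) - θ with hedef
  have he0 : 0 ≤ e := by rw [hedef]; linarith
  set g : ℝ := w + 1 - e with hg
  obtain ⟨v₁, hv₁, hv₁'⟩ : ∃ v₁ : ℝ, e / g < v₁ ∧ v₁ < v :=
    exists_between (by rwa [div_lt_iff₀ he])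
  have hv10 : 0 < v₁ := lt_of_le_of_lt (by positivity) hv₁
  rw [div_lt_iff₀ he] at hv₁
  set K : ℝ := ((n : ℝ) + 1) ^ 2 * (|ζ| + 1) ^ n with hK
  have hK0 : 0 < K := by rw [hK]; positivity
  obtain ⟨X₁, hX₁⟩ := Filter.eventually_atTop.1
    ((tendsto_rpow_atTop (sub_pos.2 hv₁')).eventually_ge_atTop K)
  obtain ⟨X, h1, h2, h3⟩ := h.unif_upper v₁ hv10 he hv₁ (max (max X₀ X₁) 2)
  have hX2 : 2 ≤ X := (le_max_right _ _).trans h1
  have hX0 : 0 < X := by linarith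
  refine ⟨X, ((le_max_left _ _).trans (le_max_left _ _)).trans h1, h2,
    fun α P hPm hPn hα hPX => ?_⟩
  by_contra hcon
  push Not at hcon
  have hq1 : (1 : ℝ) ≤ hgt P := by exact_mod_cast hgt_pos hPm.ne_zero
  have hq0 : (0 : ℝ) < hgt P := by linarith
  have hXv : X ^ (-v) ≤ 1 := Real.rpow_le_one_of_one_le_of_nonpos h2 (by linarith)
  have hXv0 : 0 < X ^ (-v) := by positivity
  have hd1 : ‖(ζ : ℂ) - α‖ ≤ 1 := by
    refine hcon.trans ?_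
    calc (hgt P : ℝ)⁻¹ * X ^ (-v) ≤ 1 * 1 := by
          apply mul_le_mul (inv_le_one_of_one_le₀ hq1) hXv hXv0.le zero_le_one
      _ = 1 := one_mul 1
  have e1 := cval_small n P hPn ζ α hα hd1
  rw [← hK] at e1
  have e2 := h3 P hPm hPn hPX
  have e3 : |aeval ζ P| ≤ K * X ^ (-v) := by
    calc |aeval ζ P| ≤ (hgt P : ℝ) * K * ‖(ζ : ℂ) - α‖ := e1
      _ ≤ (hgt P : ℝ) * K * ((hgt P : ℝ)⁻¹ * X ^ (-v)) := by gcongr
      _ = K * X ^ (-v) := by field_simp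
  have h5 := hX₁ X (((le_max_right _ _).trans (le_max_left _ _)).trans h1)
  have h6 : K * X ^ (-v) ≤ X ^ (-v₁) := by
    calc K * X ^ (-v) ≤ X ^ (v - v₁) * X ^ (-v) := by gcongr
      _ = X ^ (-v₁) := by rw [← Real.rpow_add hX0]; ring_nf
  linarith

end Pool.Agent.R330.MI
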