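import Mathlib
import Pool.Agent.R330.MI.Upper
import Pool.Agent.W472.AC.RothThm

/-! Monic approximation on the classes `D_{n,w}`: membership in the class. -/

set_option autoImplicit false

open Polynomial Finset

namespace Pool.Agent.R330.MI

open Pool.Agent.W71 Pool.Agent.TH970.SE Pool.Agent.Y627.SP

variable {n : ℕ} {w κ θ ζ C : ℝ} {p q r : ℕ → ℤ}

theorem Reg.ne (h : Reg n w κ θ ζ p q r C) (k : ℕ) : (p k : ℝ) / q k ≠ ζ := by
  intro h0
  have h1 := h.lo k
  have hq : (0 : ℝ) < q k := by linarith [h.q0 k]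
  rw [h0, sub_self, abs_zero, mul_zero] at h1
  have : (0 : ℝ) < (q k : ℝ) ^ (-(w + 1)) := by positivity
  linarith

theorem Reg.tendsto (h : Reg n w κ θ ζ p q r C) (hw : 0 < w) :
    Filter.Tendsto (fun k => (p k : ℝ) / q k) Filter.atTop (nhds ζ) := by
  rw [tendsto_iff_dist_tendsto_zero]
  have h1 : Filter.Tendsto (fun k => C * (q k : ℝ) ^ (-(w + 1))) Filter.atTop (nhds 0) := by
    have h2 := (tendsto_rpow_neg_atTop (by linarith : 0 < w + 1)).comp h.qtop
    have h3 := h2.const_mul C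
    rw [mul_zero] at h3
    exact h3
  refine squeeze_zero (fun _ => dist_nonneg) (fun k => ?_) h1
  rw [Real.dist_eq]
  exact h.up k

/-- a set containing the terms of a sequence converging to a point different from all terms -/
theorem infinite_of_tendsto {T : Set ℂ} (x : ℕ → ℂ) (z : ℂ)
    (hx : Filter.Tendsto x Filter.atTop (nhds z)) (hne : ∀ k, x k ≠ z)
    (hT : ∀ᶠ k in Filter.atTop, x k ∈ T) : T.Infinite := by
  intro hfin
  have h1 : IsClosed (T \ {z}) := (hfin.sdiff).isClosed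
  have h2 : (T \ {z})ᶜ ∈ nhds z := h1.isOpen_compl.mem_nhds (by simp)
  obtain ⟨k, h3, h4⟩ := ((hx.eventually h2).and hT).exists
  exact h3 ⟨h4, hne k⟩

theorem infinite_poly {T : Set ℤ[X]} (P : ℕ → ℤ[X])
    (hx : Filter.Tendsto (fun k => ((P k).coeff 1 : ℝ)) Filter.atTop Filter.atTop)
    (hT : ∀ᶠ k in Filter.atTop, P k ∈ T) : T.Infinite := by
  intro hfin
  obtain ⟨B, hB⟩ := (hfin.image fun Q : ℤ[X] => ((Q.coeff 1 : ℤ) : ℝ)).bddAbove
  obtain ⟨k, h3, h4⟩ := ((hx.eventually_gt_atTop B).and hT).exists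
  have := hB (Set.mem_image_of_mem _ h4)
  linarith

theorem Lk_hgt (p q : ℤ) (A : ℝ) (hA : 1 ≤ A) (hq : 0 < q) (hp : |(p : ℝ) / q| ≤ A) :
    (hgt (Lk p q) : ℝ) ≤ A * q := by
  have hqR : (0 : ℝ) < q := by exact_mod_cast hq
  apply hgt_le_real _ (by positivity)
  intro i
  rcases Nat.lt_or_ge i 2 with hi | hi
  · interval_cases i
    · rw [Lk_coeff_zero]
      push_cast
      rw [abs_neg]
      rw [abs_div, abs_of_pos hqR, div_le_iff₀ hqR] at hp
      exact hp
    · rw [Lk_coeff_one, abs_of_pos hqR]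
      nlinarith
  · rw [Lk_coeff_ge _ _ _ hi]
    simp
    positivity

/-- the linear polynomials are good approximations -/
theorem Reg.lin_small (h : Reg n w κ θ ζ p q r C) (v : ℝ) (hv : 0 < v) (hvw : v < w) :
    ∀ᶠ k in Filter.atTop, |aeval ζ (Lk (p k) (q k))| ≤ (hgt (Lk (p k) (q k)) : ℝ) ^ (-v) ∧
      |(p k : ℝ) / q k - ζ| ≤ (hgt (Lk (p k) (q k)) : ℝ) ^ (-v - 1) := by
  have hC1 := h.C1
  have hC0 : 0 < C := by linarith
  set A : ℝ := |ζ| + 1 with hA
  have hA1 : 1 ≤ A := by rw [hA]; linarith [abs_nonneg ζ]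
  have hA0 : 0 < A := by linarith
  have hev : ∀ᶠ H : ℝ in Filter.atTop, C * A ^ v ≤ H ^ (w - v) ∧ C * A ^ (v + 1) ≤ H ^ (w - v) := by
    filter_upwards [(tendsto_rpow_atTop (sub_pos.2 hvw)).eventually_ge_atTop (C * A ^ v),
      (tendsto_rpow_atTop (sub_pos.2 hvw)).eventually_ge_atTop (C * A ^ (v + 1))] with H h1 h2
    exact ⟨h1, h2⟩
  filter_upwards [h.qtop.eventually hev] with k hk
  obtain ⟨h1, h2⟩ := hk
  have hqk := h.q2 k
  have hq0 : (0 : ℝ) < q k := by linarith [h.q0 k]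
  have hH := Lk_hgt (p k) (q k) A hA1 (by omega) (h.abs_le k)
  have hH1 : (1 : ℝ) ≤ hgt (Lk (p k) (q k)) := by
    exact_mod_cast hgt_pos (Lk_ne (p k) (q k) (by omega))
  have key : ∀ u : ℝ, 0 < u → C * A ^ u ≤ (q k : ℝ) ^ (w - v) →
      C * (q k : ℝ) ^ (-(w - v + u)) ≤ (hgt (Lk (p k) (q k)) : ℝ) ^ (-u) := by
    intro u hu h3
    calc C * (q k : ℝ) ^ (-(w - v + u))
        = (C * A ^ u) * (q k : ℝ) ^ (-(w - v)) * (A ^ (-u) * (q k : ℝ) ^ (-u)) := by
          have e1 : (q k : ℝ) ^ (-(w - v + u)) = (q k : ℝ) ^ (-(w - v)) * (q k : ℝ) ^ (-u) := by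
            rw [← Real.rpow_add hq0]; congr 1; ring
          have e2 : A ^ u * A ^ (-u) = 1 := by
            rw [← Real.rpow_add hA0, add_neg_cancel, Real.rpow_zero]
          rw [e1]
          linear_combination (-(C * (q k : ℝ) ^ (-(w - v)) * (q k : ℝ) ^ (-u))) * e2
      _ ≤ (q k : ℝ) ^ (w - v) * (q k : ℝ) ^ (-(w - v)) * (A ^ (-u) * (q k : ℝ) ^ (-u)) := by
          gcongr
      _ = (A * q k) ^ (-u) := by
          rw [← Real.rpow_add hq0, add_neg_cancel, Real.rpow_zero, one_mul,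
            Real.mul_rpow hA0.le hq0.le]
      _ ≤ _ := Real.rpow_le_rpow_of_nonpos (by linarith) hH (by linarith)
  constructor
  · refine (h.lin_up k).trans ?_
    have := key v hv h1
    have e : -(w - v + v) = -w := by ring
    rwa [e] at this
  · refine (h.up k).trans ?_
    have := key (v + 1) (by linarith) h2
    have e : -(w - v + (v + 1)) = -(w + 1) := by ring
    have e2 : -(v + 1) = -v - 1 := by ring
    rwa [e, e2] at this

/-- the number is transcendental -/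
theorem Reg.transc (h : Reg n w κ θ ζ p q r C) (hn : 1 ≤ n) (hw2 : 2 ≤ w) (hw : (n : ℝ) ≤ w)
    (hκ : κ * n ≤ w * (w - n + 1)) : Transcendental ℚ ζ := by
  intro halg
  obtain ⟨c, hc0, hc⟩ := h.star hw (by linarith) hκ n le_rfl
  have hirr : Irrational ζ := by
    rintro ⟨x, hx⟩
    have hd : (x.den : ℤ) ≠ 0 := by exact_mod_cast x.den_nz
    have h1 := hc (Lk x.num x.den) (Lk_ne _ _ hd) (by rw [Lk_natDegree _ _ hd]; exact hn)
    have h2 : aeval ζ (Lk x.num x.den) = 0 := by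
      rw [Lk_aeval, ← hx]
      have h3 : ((x.den : ℤ) : ℝ) * ((x : ℚ) : ℝ) = (x.num : ℝ) := by
        have := Rat.den_mul_eq_num x
        exact_mod_cast this
      rw [h3, sub_self]
    rw [h2, abs_zero] at h1
    have h4 : (1 : ℝ) ≤ hgt (Lk x.num x.den) := by exact_mod_cast hgt_pos (Lk_ne _ _ hd)
    have h5 : 0 < c * (hgt (Lk x.num x.den) : ℝ) ^ (-w) := by positivity
    linarith
  obtain ⟨c', hc'0, hc'⟩ := Pool.Agent.W472.AC.roth ζ halg hirr (1 / 2) (by norm_num)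
  have hC0 : 0 < C := by linarith [h.C1]
  have hev : ∀ᶠ k in Filter.atTop, C / c' < (q k : ℝ) ^ (w - 3 / 2) :=
    ((tendsto_rpow_atTop (by linarith : 0 < w - 3 / 2)).comp h.qtop).eventually_gt_atTop _
  obtain ⟨k, hk⟩ := hev.exists
  have hq2 := h.q2 k
  have hq0 : (0 : ℝ) < q k := by linarith [h.q0 k]
  have h1 := hc' (q k).toNat (by omega) (p k)
  have h2 : (((q k).toNat : ℕ) : ℝ) = q k := by
    have : (((q k).toNat : ℕ) : ℤ) = q k := Int.toNat_of_nonneg (by omega)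
    exact_mod_cast this
  rw [h2, ← Lk_aeval] at h1
  have h3 := h.lin_up k
  have h4 : c' ≤ C * (q k : ℝ) ^ (-(w - 3 / 2)) := by
    calc c' ≤ (q k : ℝ) ^ (1 + (1 : ℝ) / 2) * |aeval ζ (Lk (p k) (q k))| := h1
      _ ≤ (q k : ℝ) ^ (1 + (1 : ℝ) / 2) * (C * (q k : ℝ) ^ (-w)) := by gcongr
      _ = C * ((q k : ℝ) ^ (1 + (1 : ℝ) / 2) * (q k : ℝ) ^ (-w)) := by ring
      _ = _ := by rw [← Real.rpow_add hq0]; congr 2; ring
  rw [Real.rpow_neg hq0.le, ← div_eq_mul_inv, le_div_iff₀ (by positivity)] at h4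
  rw [div_lt_iff₀ hc'0] at hk
  linarith

end Pool.Agent.R330.MI
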