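import Mathlib
import Pool.Agent.R330.MI.Basic

/-! Monic approximation on the classes `D_{n,w}`: the limit of a recursive construction. -/

set_option autoImplicit false

open Polynomial Finset

namespace Pool.Agent.R330.MI

/-- the number constructed from a recursive step -/
theorem exists_reg (n : ℕ) (w κ θ C : ℝ) (hC : 1 ≤ C) (hw : 0 ≤ w) (Inv : ℤ → ℤ → ℤ → Prop)
    (h0 : ∃ p q r, Inv p q r)
    (hI : ∀ p q r, Inv p q r → 2 ≤ q ∧ 0 ≤ p ∧ p ≤ q ∧ IsCoprime p q ∧ q ∣ p ^ n - r ∧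
      (q : ℝ) ^ θ ≤ C * |(r : ℝ)| ∧ |(r : ℝ)| ≤ C * (q : ℝ) ^ θ ∧ 2 * |r| ≤ q)
    (step : ∀ p q r, Inv p q r → ∃ p' q' r', Inv p' q' r' ∧ 2 * q ≤ q' ∧
      (q' : ℝ) ≤ C * (q : ℝ) ^ κ ∧ (q : ℝ) ^ (-(w + 1)) ≤ C * ((p' : ℝ) / q' - p / q) ∧
      (p' : ℝ) / q' - p / q ≤ C * (q : ℝ) ^ (-(w + 1))) :
    ∃ (ζ : ℝ) (p q r : ℕ → ℤ), Reg n w κ θ ζ p q r (2 * C) := by
  classical
  obtain ⟨p0, q0, r0, h0⟩ := h0
  choose! fp fq fr hf using step
  set nxt : ℤ × ℤ × ℤ → ℤ × ℤ × ℤ := fun t => (fp t.1 t.2.1 t.2.2, fq t.1 t.2.1 t.2.2,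
    fr t.1 t.2.1 t.2.2) with hnxt
  set s : ℕ → ℤ × ℤ × ℤ := fun k => nxt^[k] (p0, q0, r0) with hs
  have hs0 : s 0 = (p0, q0, r0) := rfl
  have hsS : ∀ k, s (k + 1) = nxt (s k) := by
    intro k; rw [hs]; simp only; rw [Function.iterate_succ_apply']
  have hinv : ∀ k, Inv (s k).1 (s k).2.1 (s k).2.2 := by
    intro k
    induction k with
    | zero => exact h0
    | succ k ih => rw [hsS]; exact (hf _ _ _ ih).1
  set p : ℕ → ℤ := fun k => (s k).1 with hp
  set q : ℕ → ℤ := fun k => (s k).2.1 with hq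
  set r : ℕ → ℤ := fun k => (s k).2.2 with hr
  have hinv' : ∀ k, Inv (p k) (q k) (r k) := hinv
  have hstep : ∀ k, 2 * q k ≤ q (k + 1) ∧
      (q (k + 1) : ℝ) ≤ C * (q k : ℝ) ^ κ ∧
      (q k : ℝ) ^ (-(w + 1)) ≤ C * ((p (k + 1) : ℝ) / q (k + 1) - p k / q k) ∧
      (p (k + 1) : ℝ) / q (k + 1) - p k / q k ≤ C * (q k : ℝ) ^ (-(w + 1)) := by
    intro k
    have h1 := (hf _ _ _ (hinv k)).2
    have hpk : p (k + 1) = fp (s k).1 (s k).2.1 (s k).2.2 := by
      rw [hp]; simp only; rw [hsS]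
    have hqk : q (k + 1) = fq (s k).1 (s k).2.1 (s k).2.2 := by
      rw [hq]; simp only; rw [hsS]
    rw [hpk, hqk]
    exact h1
  have hq2 : ∀ k, 2 ≤ q k := fun k => (hI _ _ _ (hinv' k)).1
  have hq2R : ∀ k, (2 : ℝ) ≤ q k := fun k => by exact_mod_cast hq2 k
  have hqgrow : ∀ k i, (2 : ℝ) ^ i * q k ≤ q (k + i) := by
    intro k i
    induction i with
    | zero => simp
    | succ i ih =>
      have h1 : (2 : ℝ) * q (k + i) ≤ q (k + i + 1) := by exact_mod_cast (hstep (k + i)).1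
      rw [← add_assoc, pow_succ]
      linarith
  set x : ℕ → ℝ := fun k => (p k : ℝ) / q k with hx
  set a : ℕ → ℝ := fun k => x (k + 1) - x k with ha
  have ha0 : ∀ k, 0 < a k := by
    intro k
    have h1 := (hstep k).2.2.1
    have h2 : (0 : ℝ) < (q k : ℝ) ^ (-(w + 1)) := by
      have := hq2R k
      positivity
    have h3 : 0 < C * a k := lt_of_lt_of_le h2 h1
    exact (mul_pos_iff_of_pos_left (by linarith)).1 h3
  have hab : ∀ k i, a (i + k) ≤ C * (q k : ℝ) ^ (-(w + 1)) * (1 / 2) ^ i := by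
    intro k i
    have h1 := (hstep (i + k)).2.2.2
    have hqk : (0 : ℝ) < q k := by linarith [hq2R k]
    have h2 : (q (i + k) : ℝ) ^ (-(w + 1)) ≤ ((2 : ℝ) ^ i * q k) ^ (-(w + 1)) := by
      apply Real.rpow_le_rpow_of_nonpos (by positivity) _ (by linarith)
      have := hqgrow k i
      rwa [add_comm k i] at this
    have h3 : ((2 : ℝ) ^ i) ^ (-(w + 1)) ≤ (1 / 2) ^ i := by
      have h4 : ((2 : ℝ) ^ i) ^ (-(w + 1)) ≤ ((2 : ℝ) ^ i) ^ (-1 : ℝ) := by
        apply Real.rpow_le_rpow_of_exponent_le (one_le_pow₀ (by norm_num)) (by linarith)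
      rw [Real.rpow_neg_one] at h4
      rwa [one_div, inv_pow]
    calc a (i + k) ≤ C * (q (i + k) : ℝ) ^ (-(w + 1)) := h1
      _ ≤ C * ((2 : ℝ) ^ i * q k) ^ (-(w + 1)) := by gcongr
      _ = C * (q k : ℝ) ^ (-(w + 1)) * ((2 : ℝ) ^ i) ^ (-(w + 1)) := by
          rw [Real.mul_rpow (by positivity) hqk.le]; ring
      _ ≤ _ := by gcongr
  have hsum : Summable a := by
    refine Summable.of_nonneg_of_le (fun k => (ha0 k).le) (fun i => ?_)
      (summable_geometric_two.mul_left (C * (q 0 : ℝ) ^ (-(w + 1))))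
    have := hab 0 i
    rwa [add_zero] at this
  set ζ : ℝ := x 0 + ∑' i, a i with hζ
  have hdiff : ∀ k, ζ - x k = ∑' i, a (i + k) := by
    intro k
    have h1 := hsum.sum_add_tsum_nat_add k
    have h2 : ∑ i ∈ range k, a i = x k - x 0 := Finset.sum_range_sub x k
    rw [hζ]; linarith
  have hsumk : ∀ k, Summable fun i => a (i + k) := fun k => (summable_nat_add_iff k).2 hsum
  have hlo : ∀ k, a k ≤ ζ - x k := by
    intro k
    rw [hdiff k]
    have := (hsumk k).le_tsum 0 (fun j _ => (ha0 (j + k)).le)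
    rwa [zero_add] at this
  have hup : ∀ k, ζ - x k ≤ 2 * C * (q k : ℝ) ^ (-(w + 1)) := by
    intro k
    rw [hdiff k]
    calc ∑' i, a (i + k) ≤ ∑' i : ℕ, C * (q k : ℝ) ^ (-(w + 1)) * (1 / 2) ^ i :=
          (hsumk k).tsum_le_tsum (fun i => hab k i) (summable_geometric_two.mul_left _)
      _ = 2 * C * (q k : ℝ) ^ (-(w + 1)) := by
          rw [tsum_mul_left, tsum_geometric_two]; ring
  have hqtop : Filter.Tendsto (fun k => (q k : ℝ)) Filter.atTop Filter.atTop := by
    have h1 : Filter.Tendsto (fun k : ℕ => (2 : ℝ) ^ k) Filter.atTop Filter.atTop :=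
      tendsto_pow_atTop_atTop_of_one_lt (by norm_num)
    refine Filter.tendsto_atTop_mono (fun k => ?_) h1
    have h2 := hqgrow 0 k
    rw [zero_add] at h2
    have h3 := hq2R 0
    nlinarith [pow_pos (by norm_num : (0 : ℝ) < 2) k]
  have hx01 : ∀ k, 0 ≤ x k ∧ x k ≤ 1 := by
    intro k
    obtain ⟨h1, h2, h3, -⟩ := hI _ _ _ (hinv' k)
    have hq0 : (0 : ℝ) < q k := by linarith [hq2R k]
    have h2' : (0 : ℝ) ≤ p k := by exact_mod_cast h2
    have h3' : (p k : ℝ) ≤ q k := by exact_mod_cast h3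
    exact ⟨by positivity, by rw [hx]; simp only; rw [div_le_one hq0]; exact h3'⟩
  have hxζ : Filter.Tendsto x Filter.atTop (nhds ζ) := by
    have h1 : Filter.Tendsto (fun k => x 0 + ∑ i ∈ range k, a i) Filter.atTop (nhds ζ) :=
      hsum.hasSum.tendsto_sum_nat.const_add _
    refine h1.congr fun k => ?_
    have h2 : ∑ i ∈ range k, a i = x k - x 0 := Finset.sum_range_sub x k
    rw [h2]; ring
  have hζ1 : ζ ≤ 1 := le_of_tendsto' hxζ fun k => (hx01 k).2
  have habs : ∀ k, |x k - ζ| = ζ - x k := by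
    intro k
    rw [abs_sub_comm, abs_of_nonneg]
    exact (ha0 k).le.trans (hlo k)
  refine ⟨ζ, p, q, r, ?_⟩
  exact
    { C1 := by linarith
      q2 := hq2
      qtop := hqtop
      cop := fun k => (hI _ _ _ (hinv' k)).2.2.2.1
      near := by
        intro k
        have h1 := habs k
        rw [hx] at h1
        simp only at h1
        rw [h1]
        have := (hx01 k).1
        rw [hx] at this
        simp only at this
        linarith
      up := by
        intro k
        have h1 := habs k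
        have h2 := hup k
        rw [← h1] at h2
        exact h2
      lo := by
        intro k
        have h1 := habs k
        have h2 := (hstep k).2.2.1
        have h3 := hlo k
        rw [← h1] at h3
        refine h2.trans ?_
        have h4 : C * a k ≤ C * |x k - ζ| := by gcongr
        have h5 : 0 ≤ C * |x k - ζ| := by positivity
        calc C * ((p (k + 1) : ℝ) / q (k + 1) - p k / q k) = C * a k := rfl
          _ ≤ C * |x k - ζ| := h4
          _ ≤ 2 * C * |(p k : ℝ) / q k - ζ| := by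
              have : C * |x k - ζ| = C * |(p k : ℝ) / q k - ζ| := rfl
              linarith
      grow := by
        intro k
        refine (hstep k).2.1.trans ?_
        have : (0 : ℝ) ≤ C * (q k : ℝ) ^ κ := by
          have := hq2R k
          positivity
        linarith
      cong := fun k => (hI _ _ _ (hinv' k)).2.2.2.2.1
      rlo := by
        intro k
        refine (hI _ _ _ (hinv' k)).2.2.2.2.2.1.trans ?_
        have : (0 : ℝ) ≤ C * |(r k : ℝ)| := by positivity
        linarith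
      rup := by
        intro k
        refine (hI _ _ _ (hinv' k)).2.2.2.2.2.2.1.trans ?_
        have : (0 : ℝ) ≤ C * (q k : ℝ) ^ θ := by
          have := hq2R k
          positivity
        linarith
      rhalf := fun k => (hI _ _ _ (hinv' k)).2.2.2.2.2.2.2 }

end Pool.Agent.R330.MI
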