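import Mathlib
import Pool.Agent.R330.MI.Limit

/-! Monic approximation on the classes `D_{n,w}`: the first construction,
`q' = x^n + ρ'^{n-1} q^n`. -/

set_option autoImplicit false

open Polynomial Finset

namespace Pool.Agent.R330.MI

/-- an integer in a residue class and in an interval -/
theorem shift (a M : ℤ) (hM : 0 < M) (Y : ℝ) : ∃ x : ℤ, M ∣ x - a ∧ Y ≤ x ∧ (x : ℝ) < Y + M := by
  have hMR : (0 : ℝ) < M := by exact_mod_cast hM
  refine ⟨a + M * ⌈(Y - a) / M⌉, ⟨⌈(Y - a) / M⌉, by ring⟩, ?_, ?_⟩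
  · have h1 := Int.le_ceil ((Y - a) / (M : ℝ))
    rw [div_le_iff₀ hMR] at h1
    push_cast; linarith
  · have h1 := Int.ceil_lt_add_one ((Y - a) / (M : ℝ))
    have h2 : (M : ℝ) * ⌈(Y - a) / (M : ℝ)⌉ < M * ((Y - a) / M + 1) := by gcongr
    have h3 : (M : ℝ) * ((Y - a) / M + 1) = Y - a + M := by field_simp
    push_cast; linarith

theorem coprime_two {q : ℤ} (h : Odd q) : IsCoprime 2 q := by
  obtain ⟨s, hs⟩ := h
  exact ⟨-s, 1, by rw [hs]; ring⟩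

/-- a power of two in an interval -/
theorem pow_two_between (Z : ℝ) (hZ : 1 ≤ Z) : ∃ j : ℕ, 1 ≤ j ∧ Z ≤ 2 ^ j ∧ (2 : ℝ) ^ j ≤ 2 * Z := by
  obtain ⟨j, h1, h2⟩ := exists_nat_pow_near hZ (by norm_num : (1 : ℝ) < 2)
  refine ⟨j + 1, by omega, h2.le, ?_⟩
  rw [pow_succ]; linarith

/-- an odd integer in a residue class modulo an odd number and in an interval -/
theorem shift_odd (a q : ℤ) (hq : 0 < q) (hodd : Odd q) (Y : ℝ) :
    ∃ x : ℤ, q ∣ x - a ∧ Odd x ∧ Y ≤ x ∧ (x : ℝ) < Y + 2 * q := by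
  obtain ⟨x, h1, h2, h3⟩ := shift (a + q * (1 - a)) (2 * q) (by omega) Y
  refine ⟨x, ?_, ?_, h2, by push_cast at h3; exact h3⟩
  · obtain ⟨t, ht⟩ := h1
    exact ⟨2 * t + (1 - a), by linear_combination ht⟩
  · obtain ⟨t, ht⟩ := h1
    obtain ⟨s, hs⟩ := hodd
    refine ⟨q * t + s * (1 - a), ?_⟩
    have : x = a + q * (1 - a) + 2 * q * t := by linarith
    rw [this, hs]; ring

/-- the arithmetic of the step, common to both constructions -/
theorem step_arith (n : ℕ) (p q x m s q' : ℤ) (hq : 0 < q)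
    (hxq : IsCoprime x q) (hxq' : IsCoprime x q')
    (hmq' : m * q' = x ^ n + s * q ^ n) (hcong : q ∣ p * q' + x) (hn : n ≠ 0)
    (hp0 : 0 < p) (hpq : p < q) (hx0 : 0 < x) (hxlt : x < q') :
    ∃ p' : ℤ, IsCoprime p' q' ∧ q' ∣ p' ^ n + s ∧ p' * q = x + p * q' ∧ 0 < p' ∧ p' < q' := by
  obtain ⟨p', hp'⟩ := hcong
  have hp'q : p' * q = x + p * q' := by linarith
  have hq'0 : 0 < q' := by linarith
  have hcop1 : IsCoprime p' q' := by
    obtain ⟨u, v, huv⟩ := hxq'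
    refine ⟨u * q, v - u * p, ?_⟩
    have : x = p' * q - p * q' := by linarith
    rw [this] at huv
    linarith
  have hcop2 : IsCoprime (q ^ n) q' := by
    have h1 : IsCoprime (x ^ n) q := hxq.pow_left
    have h2 : x ^ n = m * q' - s * q ^ n := by linarith
    rw [h2] at h1
    obtain ⟨u, v, huv⟩ := h1
    have h3 : IsCoprime q q' := by
      refine ⟨v - u * s * q ^ (n - 1), u * m, ?_⟩
      have h4 : q ^ n = q * q ^ (n - 1) := by
        rw [← pow_succ', Nat.sub_add_cancel (by omega)]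
      rw [h4] at huv
      linarith
    exact h3.pow_left
  have hdvd : q' ∣ p' ^ n + s := by
    have h1 : q' ∣ (x + p * q') ^ n - x ^ n := by
      have h2 := sub_dvd_pow_sub_pow (x + p * q') x n
      exact (Dvd.intro_left p (by ring)).trans h2
    have h3 : q' ∣ q ^ n * (p' ^ n + s) := by
      have h4 : q ^ n * (p' ^ n + s) = ((x + p * q') ^ n - x ^ n) + m * q' := by
        rw [hmq', ← hp'q, mul_pow]; ring
      rw [h4]
      exact dvd_add h1 (dvd_mul_left _ _)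
    exact hcop2.symm.dvd_of_dvd_mul_left h3
  refine ⟨p', hcop1, hdvd, hp'q, ?_, ?_⟩
  · have : 0 < p' * q := by rw [hp'q]; positivity
    exact (mul_pos_iff_of_pos_right hq).1 this
  · have : p' * q < q' * q := by
      rw [hp'q]
      have : p * q' ≤ (q - 1) * q' := by
        apply mul_le_mul_of_nonneg_right _ hq'0.le
        omega
      linarith
    exact lt_of_mul_lt_mul_right this hq.le

/-- the state of the first construction -/
def InvA (n : ℕ) (p q : ℤ) (ρ : ℤ) : Prop :=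
  2 ≤ q ∧ Odd q ∧ (∃ i : ℕ, 1 ≤ i ∧ ρ = 2 ^ i) ∧ IsCoprime p q ∧ q ∣ p ^ n + ρ ^ (n - 1) ∧
    0 < p ∧ p < q

theorem stepA (n : ℕ) (hn : 2 ≤ n) (w κ θ : ℝ) (hw : 2 * ((n : ℝ) - 1) ≤ w)
    (hκ : κ * ((n : ℝ) - 1) = n * w) (hθ0 : 0 ≤ θ) (hθ : θ ≤ 1 / 2) (p q ρ : ℤ)
    (h : InvA n p q ρ) : ∃ p' q' ρ' : ℤ, InvA n p' q' ρ' ∧ 2 * q ≤ q' ∧
      (q : ℝ) ^ κ ≤ q' ∧ (q' : ℝ) ≤ (3 ^ n + 2 ^ n) * (q : ℝ) ^ κ ∧
      (q : ℝ) ^ (-(w + 1)) ≤ (3 ^ n + 2 ^ n) * ((p' : ℝ) / q' - p / q) ∧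
      (p' : ℝ) / q' - p / q ≤ (3 ^ n + 2 ^ n) * (q : ℝ) ^ (-(w + 1)) ∧
      (q : ℝ) ^ (κ * θ) ≤ (ρ' : ℝ) ^ (n - 1) ∧
      (ρ' : ℝ) ^ (n - 1) ≤ 2 ^ n * (q : ℝ) ^ (κ * θ) ∧ 2 * ρ' ^ (n - 1) ≤ q' := by
  obtain ⟨hq2, hqodd, ⟨i, hi1, hρ⟩, hcop, hdvd, hp0, hpq⟩ := h
  have hnR : (2 : ℝ) ≤ n := by exact_mod_cast hn
  have hn1 : (0 : ℝ) < (n : ℝ) - 1 := by linarith
  have hq2R : (2 : ℝ) ≤ q := by exact_mod_cast hq2
  have hq0 : (0 : ℝ) < q := by linarith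
  have hq1 : (1 : ℝ) ≤ q := by linarith
  have hρq : IsCoprime ρ q := by
    rw [hρ]
    exact (coprime_two hqodd).pow_left
  obtain ⟨u, v, huv⟩ := hρq
  set Y : ℝ := (q : ℝ) ^ (w / ((n : ℝ) - 1)) with hY
  have hYq : (q : ℝ) ≤ Y := by
    rw [hY]
    calc (q : ℝ) = (q : ℝ) ^ (1 : ℝ) := (Real.rpow_one _).symm
      _ ≤ _ := by
        apply Real.rpow_le_rpow_of_exponent_le hq1
        rw [le_div_iff₀ hn1]; linarith
  have hY0 : 0 < Y := by linarith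
  obtain ⟨x, hx1, hxodd, hxlo, hxup⟩ := shift_odd (p * u) q (by omega) hqodd Y
  have hxup3 : (x : ℝ) ≤ 3 * Y := by linarith
  have hx0R : (0 : ℝ) < x := by linarith
  have hx0 : 0 < x := by exact_mod_cast hx0R
  have hκθ0 : 0 ≤ κ := by
    have h1 : 0 ≤ κ * ((n : ℝ) - 1) := by rw [hκ]; nlinarith
    exact nonneg_of_mul_nonneg_left h1 hn1
  obtain ⟨j, hj1, hj2, hj3⟩ := pow_two_between ((q : ℝ) ^ (κ * θ / ((n : ℝ) - 1)))
    (Real.one_le_rpow hq1 (by positivity))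
  set ρ' : ℤ := 2 ^ j with hρ'
  have hρ'R : (ρ' : ℝ) = 2 ^ j := by rw [hρ']; push_cast; rfl
  have hcast : (((n - 1 : ℕ) : ℝ)) = (n : ℝ) - 1 := by
    rw [Nat.cast_sub (by omega)]; simp
  have hpow : ((q : ℝ) ^ (κ * θ / ((n : ℝ) - 1))) ^ (n - 1) = (q : ℝ) ^ (κ * θ) := by
    rw [← Real.rpow_natCast, ← Real.rpow_mul hq0.le, hcast]
    congr 1; field_simp
  have hρlo : (q : ℝ) ^ (κ * θ) ≤ (ρ' : ℝ) ^ (n - 1) := by
    rw [hρ'R, ← hpow]
    exact pow_le_pow_left₀ (by positivity) hj2 _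
  have hρup : (ρ' : ℝ) ^ (n - 1) ≤ 2 ^ n * (q : ℝ) ^ (κ * θ) := by
    rw [hρ'R]
    calc ((2 : ℝ) ^ j) ^ (n - 1) ≤ (2 * (q : ℝ) ^ (κ * θ / ((n : ℝ) - 1))) ^ (n - 1) :=
          pow_le_pow_left₀ (by positivity) hj3 _
      _ = 2 ^ (n - 1) * (q : ℝ) ^ (κ * θ) := by rw [mul_pow, hpow]
      _ ≤ 2 ^ n * (q : ℝ) ^ (κ * θ) := by
          gcongr
          · norm_num
          · omega
  set q' : ℤ := x ^ n + ρ' ^ (n - 1) * q ^ n with hq'
  have hρ'0 : 0 < ρ' := by rw [hρ']; positivity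
  have hρ'even : Even ρ' := by rw [hρ']; exact (even_two).pow_of_ne_zero (by omega)
  have hq'odd : Odd q' := by
    rw [hq']
    apply Odd.add_even hxodd.pow
    exact (hρ'even.pow_of_ne_zero (by omega)).mul_right _
  -- coprimality
  have hxq : IsCoprime x q := by
    obtain ⟨t, ht⟩ := hx1
    obtain ⟨a, b, hab⟩ := hcop
    have h1 : x * ρ = p + q * (t * ρ - p * v) := by
      have : x = p * u + q * t := by linarith
      rw [this]
      linear_combination p * huv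
    refine ⟨a * ρ, b - a * (t * ρ - p * v), ?_⟩
    linear_combination hab + a * h1
  have hxρ' : IsCoprime x ρ' := by
    rw [hρ']
    exact (coprime_two hxodd).symm.pow_right
  have hxq' : IsCoprime x q' := by
    have h1 : IsCoprime x (ρ' ^ (n - 1) * q ^ n) := hxρ'.pow_right.mul_right hxq.pow_right
    rw [hq']
    have h2 : x ^ n = x ^ (n - 1) * x := by rw [← pow_succ, Nat.sub_add_cancel (by omega)]
    rw [h2, add_comm]
    exact h1.add_mul_right_right _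
  have hcong : q ∣ p * q' + x := by
    obtain ⟨t, ht⟩ := hx1
    obtain ⟨c, hc⟩ := hdvd
    -- `q ∣ p x^{n-1} + 1`
    have h1 : q ∣ x * ρ - p := by
      refine ⟨t * ρ - p * v, ?_⟩
      have : x = p * u + q * t := by linarith
      rw [this]
      linear_combination p * huv
    have h2 : q ∣ (x * ρ) ^ (n - 1) - p ^ (n - 1) :=
      h1.trans (sub_dvd_pow_sub_pow _ _ _)
    have h3 : q ∣ ρ ^ (n - 1) * (p * x ^ (n - 1) + 1) := by
      have h4 : p ^ n = p * p ^ (n - 1) := by rw [← pow_succ', Nat.sub_add_cancel (by omega)]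
      have h5 : ρ ^ (n - 1) * (p * x ^ (n - 1) + 1) =
          p * ((x * ρ) ^ (n - 1) - p ^ (n - 1)) + (p ^ n + ρ ^ (n - 1)) := by
        rw [h4, mul_pow]; ring
      rw [h5, hc]
      exact dvd_add (Dvd.dvd.mul_left h2 _) (dvd_mul_right _ _)
    have hρq : IsCoprime ρ q := ⟨u, v, huv⟩
    have h6 : q ∣ p * x ^ (n - 1) + 1 := (hρq.pow_left (m := n - 1)).symm.dvd_of_dvd_mul_left h3
    have h7 : x ^ n = x * x ^ (n - 1) := by rw [← pow_succ', Nat.sub_add_cancel (by omega)]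
    have h8 : q ^ n = q * q ^ (n - 1) := by rw [← pow_succ', Nat.sub_add_cancel (by omega)]
    have h9 : p * q' + x = x * (p * x ^ (n - 1) + 1) + q * (p * ρ' ^ (n - 1) * q ^ (n - 1)) := by
      rw [hq', h7, h8]; ring
    rw [h9]
    exact dvd_add (Dvd.dvd.mul_left h6 _) (dvd_mul_right _ _)
  have hqn0 : 0 < q ^ n := by positivity
  have hxlt : x < q' := by
    have h1 : x ≤ x ^ n := le_self_pow₀ (by omega) (by omega)
    have h2 : 0 < ρ' ^ (n - 1) * q ^ n := by positivity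
    rw [hq']; omega
  obtain ⟨p', k1, k2, k3, k4, k5⟩ := step_arith n p q x 1 (ρ' ^ (n - 1)) q' (by omega) hxq hxq'
    (by rw [hq', one_mul]) hcong (by omega) hp0 hpq hx0 hxlt
  -- sizes
  have hYn : Y ^ n = (q : ℝ) ^ κ := by
    rw [hY, ← Real.rpow_natCast, ← Real.rpow_mul hq0.le]
    congr 1
    field_simp
    linarith
  have hq'R : (q' : ℝ) = (x : ℝ) ^ n + (ρ' : ℝ) ^ (n - 1) * (q : ℝ) ^ n := by
    rw [hq']; push_cast; ring
  have hq'lo : (q : ℝ) ^ κ ≤ q' := by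
    rw [hq'R, ← hYn]
    have h1 : Y ^ n ≤ (x : ℝ) ^ n := pow_le_pow_left₀ hY0.le hxlo n
    have h2 : 0 ≤ (ρ' : ℝ) ^ (n - 1) * (q : ℝ) ^ n := by
      have : (0 : ℝ) < ρ' := by exact_mod_cast hρ'0
      positivity
    linarith
  have hκn : κ * θ + n ≤ κ := by
    have h1 : κ * (1 / 2) ≤ κ * (1 - θ) := by
      apply mul_le_mul_of_nonneg_left _ hκθ0; linarith
    have h2 : (n : ℝ) ≤ κ * (1 / 2) := by
      have h3 : (2 * (n : ℝ)) * ((n : ℝ) - 1) ≤ κ * ((n : ℝ) - 1) := by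
        rw [hκ]; nlinarith
      have := le_of_mul_le_mul_right h3 hn1
      linarith
    linarith
  have hq'up : (q' : ℝ) ≤ (3 ^ n + 2 ^ n) * (q : ℝ) ^ κ := by
    rw [hq'R]
    have h1 : (x : ℝ) ^ n ≤ 3 ^ n * (q : ℝ) ^ κ := by
      rw [← hYn, ← mul_pow]
      exact pow_le_pow_left₀ hx0R.le hxup3 n
    have h2 : (ρ' : ℝ) ^ (n - 1) * (q : ℝ) ^ n ≤ 2 ^ n * (q : ℝ) ^ κ := by
      calc (ρ' : ℝ) ^ (n - 1) * (q : ℝ) ^ n ≤ (2 ^ n * (q : ℝ) ^ (κ * θ)) * (q : ℝ) ^ n := by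
            gcongr
        _ = 2 ^ n * (q : ℝ) ^ (κ * θ + n) := by
            rw [Real.rpow_add hq0, Real.rpow_natCast]; ring
        _ ≤ 2 ^ n * (q : ℝ) ^ κ := by
            gcongr
    linarith
  have hq'0 : (0 : ℝ) < q' := lt_of_lt_of_le (by positivity) hq'lo
  have hdiff : (p' : ℝ) / q' - p / q = x / (q * q') := by
    have h1 : (p' : ℝ) * q = x + p * q' := by exact_mod_cast k3
    field_simp
    linarith
  have hexp : (q : ℝ) ^ κ * (q : ℝ) ^ (-(w + 1)) * q = Y := by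
    rw [hY]
    have h1 : (q : ℝ) ^ κ * (q : ℝ) ^ (-(w + 1)) * (q : ℝ) ^ (1 : ℝ) =
        (q : ℝ) ^ (w / ((n : ℝ) - 1)) := by
      rw [← Real.rpow_add hq0, ← Real.rpow_add hq0]
      congr 1
      field_simp
      nlinarith
    rwa [Real.rpow_one] at h1
  have hD1 : (3 : ℝ) ≤ 3 ^ n + 2 ^ n := by
    have h1 : (3 : ℝ) ^ 1 ≤ 3 ^ n := pow_le_pow_right₀ (by norm_num) (by omega)
    have h2 : (0 : ℝ) < 2 ^ n := by positivity
    linarith
  refine ⟨p', q', ρ', ⟨by omega, hq'odd, ⟨j, hj1, rfl⟩, k1, k2, k4, k5⟩, ?_, hq'lo, hq'up, ?_, ?_,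
    hρlo, hρup, ?_⟩
  · have h1 : q ≤ x := by exact_mod_cast hYq.trans hxlo
    have h2 : x ^ 2 ≤ x ^ n := pow_le_pow_right₀ (by omega) hn
    have h3 : 0 < ρ' ^ (n - 1) * q ^ n := by positivity
    rw [hq']
    nlinarith
  · rw [hdiff, ← mul_div_assoc, le_div_iff₀ (by positivity)]
    calc (q : ℝ) ^ (-(w + 1)) * (q * q')
        ≤ (q : ℝ) ^ (-(w + 1)) * (q * ((3 ^ n + 2 ^ n) * (q : ℝ) ^ κ)) := by gcongr
      _ = (3 ^ n + 2 ^ n) * ((q : ℝ) ^ κ * (q : ℝ) ^ (-(w + 1)) * q) := by ring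
      _ = (3 ^ n + 2 ^ n) * Y := by rw [hexp]
      _ ≤ (3 ^ n + 2 ^ n) * x := by gcongr
  · rw [hdiff, div_le_iff₀ (by positivity)]
    calc (x : ℝ) ≤ 3 * Y := hxup3
      _ ≤ (3 ^ n + 2 ^ n) * Y := by gcongr
      _ = (3 ^ n + 2 ^ n) * ((q : ℝ) ^ κ * (q : ℝ) ^ (-(w + 1)) * q) := by rw [hexp]
      _ = (3 ^ n + 2 ^ n) * (q : ℝ) ^ (-(w + 1)) * (q * (q : ℝ) ^ κ) := by ring
      _ ≤ (3 ^ n + 2 ^ n) * (q : ℝ) ^ (-(w + 1)) * (q * q') := by gcongr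
  · have h1 : 2 ≤ q ^ n := by
      calc (2 : ℤ) ≤ q := hq2
        _ ≤ q ^ n := le_self_pow₀ (by omega) (by omega)
    have h2 : 0 < ρ' ^ (n - 1) := by positivity
    have h3 : 0 < x ^ n := by positivity
    rw [hq']
    nlinarith

end Pool.Agent.R330.MI
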