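import Mathlib
import Pool.Agent.R330.MI.ConsA

/-! Monic approximation on the classes `D_{n,w}`: the second construction,
`m q' = x^n + s q^n`. -/

set_option autoImplicit false

open Polynomial Finset

namespace Pool.Agent.R330.MI

theorem stepB (n : ℕ) (hn : 2 ≤ n) (w κ θ : ℝ) (hw : (n : ℝ) ≤ w)
    (hκ : κ * ((n : ℝ) - 1) = n * w + 1) (hθ : 1 / 2 ≤ θ) (hθ1 : θ ≤ 1) (p q : ℤ)
    (hq8 : 8 ≤ q) (hqodd : Odd q) (hcop : IsCoprime p q) (hp0 : 0 < p) (hpq : p < q) :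
    ∃ p' q' s : ℤ, Odd q' ∧ IsCoprime p' q' ∧ 0 < p' ∧ p' < q' ∧ q' ∣ p' ^ n + s ∧ 0 < s ∧
      2 * q ≤ q' ∧ (q : ℝ) ^ κ ≤ 3 * q' ∧ (q' : ℝ) ≤ 8 * (2 ^ n + 7) * (q : ℝ) ^ κ ∧
      (q : ℝ) ^ (-(w + 1)) ≤ 8 * (2 ^ n + 7) * ((p' : ℝ) / q' - p / q) ∧
      (p' : ℝ) / q' - p / q ≤ 8 * (2 ^ n + 7) * (q : ℝ) ^ (-(w + 1)) ∧
      (q : ℝ) ^ (κ * θ) ≤ s ∧ (s : ℝ) ≤ 7 * (q : ℝ) ^ (κ * θ) ∧ 2 * s ≤ q' := by
  have hnR : (2 : ℝ) ≤ n := by exact_mod_cast hn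
  have hn1 : (0 : ℝ) < (n : ℝ) - 1 := by linarith
  have hq8R : (8 : ℝ) ≤ q := by exact_mod_cast hq8
  have hq0 : (0 : ℝ) < q := by linarith
  have hq1 : (1 : ℝ) ≤ q := by linarith
  have hqpos : 0 < q := by omega
  -- exponents
  have hκn : (n : ℝ) + 1 ≤ κ := by
    have h1 : ((n : ℝ) + 1) * ((n : ℝ) - 1) ≤ κ * ((n : ℝ) - 1) := by rw [hκ]; nlinarith
    exact le_of_mul_le_mul_right h1 hn1
  set μ : ℝ := max 1 (n - κ * (1 - θ)) with hμ
  have hμ1 : 1 ≤ μ := le_max_left _ _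
  have hμn : μ ≤ n := by
    rw [hμ]
    apply max_le (by linarith)
    nlinarith
  have hμθ : μ ≤ κ * θ := by
    rw [hμ]
    apply max_le
    · nlinarith
    · linarith
  -- the power of two
  set Z : ℝ := (q : ℝ) ^ (κ - w) with hZ
  have hκw : (κ - w) * ((n : ℝ) - 1) = w + 1 := by linarith
  have hκw0 : 0 < κ - w := by
    have : 0 < (κ - w) * ((n : ℝ) - 1) := by rw [hκw]; linarith
    exact (mul_pos_iff_of_pos_right hn1).1 this
  obtain ⟨j, hj1, hj2, hj3⟩ := pow_two_between Z (Real.one_le_rpow hq1 hκw0.le)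
  set x : ℤ := 2 ^ j with hx
  have hxR : (x : ℝ) = 2 ^ j := by rw [hx]; push_cast; rfl
  have hx0 : 0 < x := by rw [hx]; positivity
  have hx0R : (0 : ℝ) < x := by exact_mod_cast hx0
  have hxlo : Z ≤ x := by rw [hxR]; exact hj2
  have hxup : (x : ℝ) ≤ 2 * Z := by rw [hxR]; exact hj3
  have hxeven : Even x := by rw [hx]; exact (even_two).pow_of_ne_zero (by omega)
  have hxcop : ∀ y : ℤ, Odd y → IsCoprime x y := by
    intro y hy; rw [hx]; exact (coprime_two hy).pow_left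
  -- the multiplier
  obtain ⟨m, hm1, hmodd, hmlo, hmup⟩ := shift_odd (-(p * x ^ (n - 1))) q hqpos hqodd
    ((q : ℝ) ^ μ / 8)
  have hqμ : (q : ℝ) ≤ (q : ℝ) ^ μ := by
    calc (q : ℝ) = (q : ℝ) ^ (1 : ℝ) := (Real.rpow_one _).symm
      _ ≤ _ := Real.rpow_le_rpow_of_exponent_le hq1 hμ1
  have hqμ0 : 0 < (q : ℝ) ^ μ := by positivity
  have hm0R : (0 : ℝ) < m := by linarith
  have hm0 : 0 < m := by exact_mod_cast hm0R
  have hmup3 : (m : ℝ) ≤ 3 * (q : ℝ) ^ μ := by linarith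
  have hqμn : (q : ℝ) ^ μ ≤ (q : ℝ) ^ n := by
    rw [← Real.rpow_natCast]
    exact Real.rpow_le_rpow_of_exponent_le hq1 hμn
  have hqn8 : 8 * (q : ℝ) ≤ (q : ℝ) ^ n := by
    calc 8 * (q : ℝ) ≤ q * q := by gcongr
      _ = (q : ℝ) ^ 2 := by ring
      _ ≤ (q : ℝ) ^ n := pow_le_pow_right₀ hq1 hn
  have h2m : 2 * (m : ℝ) ≤ (q : ℝ) ^ n := by linarith
  have hmq : IsCoprime m q := by
    obtain ⟨t, ht⟩ := hm1
    have h1 : IsCoprime (p * x ^ (n - 1)) q := hcop.mul_left (hxcop q hqodd).pow_left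
    obtain ⟨a, b, hab⟩ := h1
    refine ⟨-a, b + a * t, ?_⟩
    have : m = -(p * x ^ (n - 1)) + q * t := by linarith
    rw [this]
    linear_combination hab
  obtain ⟨u, v, huv⟩ := hmq
  -- v q ≡ 1 mod m
  obtain ⟨s, hs1, hsodd, hslo, hsup⟩ := shift_odd (-(x ^ n * v ^ n)) m hm0 hmodd
    ((q : ℝ) ^ (κ * θ))
  have hqκθ : (q : ℝ) ^ μ ≤ (q : ℝ) ^ (κ * θ) := Real.rpow_le_rpow_of_exponent_le hq1 hμθ
  have hsup7 : (s : ℝ) ≤ 7 * (q : ℝ) ^ (κ * θ) := by linarith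
  have hs0R : (0 : ℝ) < s := lt_of_lt_of_le (by positivity) hslo
  have hs0 : 0 < s := by exact_mod_cast hs0R
  have hmdvd : m ∣ x ^ n + s * q ^ n := by
    have h1 : m ∣ (v * q) ^ n - 1 := by
      have h2 := sub_dvd_pow_sub_pow (v * q) 1 n
      rw [one_pow] at h2
      refine dvd_trans ?_ h2
      exact ⟨-u, by linear_combination huv⟩
    obtain ⟨t, ht⟩ := hs1
    have h3 : x ^ n + s * q ^ n = m * (t * q ^ n) - x ^ n * ((v * q) ^ n - 1) := by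
      have : s = -(x ^ n * v ^ n) + m * t := by linarith
      rw [this, mul_pow]; ring
    rw [h3]
    exact dvd_sub (dvd_mul_right _ _) (Dvd.dvd.mul_left h1 _)
  obtain ⟨q', hq'⟩ := hmdvd
  have hmq' : m * q' = x ^ n + s * q ^ n := hq'.symm
  have hmq'R : (m : ℝ) * q' = (x : ℝ) ^ n + s * (q : ℝ) ^ n := by exact_mod_cast hmq'
  have hq'odd : Odd q' := by
    have h1 : Odd (m * q') := by
      rw [hmq']
      exact (hxeven.pow_of_ne_zero (by omega)).add_odd (hsodd.mul hqodd.pow)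
    exact (Int.odd_mul.1 h1).2
  have hcong : q ∣ p * q' + x := by
    obtain ⟨t, ht⟩ := hm1
    have hm' : m = -(p * x ^ (n - 1)) + q * t := by linarith
    have h7 : x ^ n = x ^ (n - 1) * x := by rw [← pow_succ, Nat.sub_add_cancel (by omega)]
    have h8 : q ^ n = q * q ^ (n - 1) := by rw [← pow_succ', Nat.sub_add_cancel (by omega)]
    have h1 : q ∣ x ^ (n - 1) * (p * q' + x) := by
      refine ⟨t * q' - s * q ^ (n - 1), ?_⟩
      rw [hm', h7, h8] at hmq'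
      linear_combination -hmq'
    exact (((hxcop q hqodd).pow_left (m := n - 1)).symm).dvd_of_dvd_mul_left h1
  -- sizes
  have hxn : n * (κ - w) = κ + 1 := by
    have : n * (κ - w) = (κ - w) * ((n : ℝ) - 1) + (κ - w) := by ring
    rw [this, hκw]; ring
  have hZn : Z ^ n = (q : ℝ) ^ (κ + 1) := by
    rw [hZ, ← Real.rpow_natCast, ← Real.rpow_mul hq0.le]
    congr 1; linarith
  have hqκ0 : 0 < (q : ℝ) ^ κ := by positivity
  have hq'up : (q' : ℝ) ≤ 8 * (2 ^ n + 7) * (q : ℝ) ^ κ := by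
    have h1 : (x : ℝ) ^ n ≤ 2 ^ n * (q : ℝ) ^ (κ + μ) := by
      calc (x : ℝ) ^ n ≤ (2 * Z) ^ n := pow_le_pow_left₀ hx0R.le hxup n
        _ = 2 ^ n * (q : ℝ) ^ (κ + 1) := by rw [mul_pow, hZn]
        _ ≤ 2 ^ n * (q : ℝ) ^ (κ + μ) := by gcongr
    have h2 : (s : ℝ) * (q : ℝ) ^ n ≤ 7 * (q : ℝ) ^ (κ + μ) := by
      calc (s : ℝ) * (q : ℝ) ^ n ≤ (7 * (q : ℝ) ^ (κ * θ)) * (q : ℝ) ^ n := by gcongr
        _ = 7 * (q : ℝ) ^ (κ * θ + n) := by rw [Real.rpow_add hq0, Real.rpow_natCast]; ring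
        _ ≤ 7 * (q : ℝ) ^ (κ + μ) := by
            apply mul_le_mul_of_nonneg_left _ (by norm_num)
            apply Real.rpow_le_rpow_of_exponent_le hq1
            have := le_max_right 1 ((n : ℝ) - κ * (1 - θ))
            rw [← hμ] at this
            linarith
    have h3 : (q : ℝ) ^ (κ + μ) = (q : ℝ) ^ κ * (q : ℝ) ^ μ := Real.rpow_add hq0 _ _
    have h4 : (m : ℝ) * q' ≤ m * (8 * (2 ^ n + 7) * (q : ℝ) ^ κ) := by
      calc (m : ℝ) * q' ≤ (2 ^ n + 7) * ((q : ℝ) ^ κ * (q : ℝ) ^ μ) := by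
            rw [hmq'R, ← h3]; linarith
        _ ≤ (2 ^ n + 7) * ((q : ℝ) ^ κ * (8 * m)) := by gcongr; linarith
        _ = _ := by ring
    exact le_of_mul_le_mul_left h4 hm0R
  have hq'lo : (q : ℝ) ^ κ ≤ 3 * q' := by
    have h1 : (q : ℝ) ^ (κ + μ) ≤ (m : ℝ) * q' := by
      rw [hmq'R]
      have h5 : (q : ℝ) ^ (κ + 1) ≤ (x : ℝ) ^ n := by
        rw [← hZn]; exact pow_le_pow_left₀ (by positivity) hxlo n
      have h6 : (q : ℝ) ^ (κ * θ + n) ≤ (s : ℝ) * (q : ℝ) ^ n := by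
        rw [Real.rpow_add hq0, Real.rpow_natCast]
        gcongr
      have h7 : (0 : ℝ) < (x : ℝ) ^ n := by positivity
      have h8 : (0 : ℝ) < (s : ℝ) * (q : ℝ) ^ n := by positivity
      rcases max_choice 1 ((n : ℝ) - κ * (1 - θ)) with h9 | h9
      · rw [hμ, h9]; linarith
      · rw [hμ, h9]
        have : κ + ((n : ℝ) - κ * (1 - θ)) = κ * θ + n := by ring
        rw [this]; linarith
    have h3 : (q : ℝ) ^ (κ + μ) = (q : ℝ) ^ κ * (q : ℝ) ^ μ := Real.rpow_add hq0 _ _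
    have h2 : (m : ℝ) * (q : ℝ) ^ κ ≤ m * (3 * q') := by
      calc (m : ℝ) * (q : ℝ) ^ κ ≤ (3 * (q : ℝ) ^ μ) * (q : ℝ) ^ κ := by gcongr
        _ = 3 * (q : ℝ) ^ (κ + μ) := by rw [h3]; ring
        _ ≤ 3 * ((m : ℝ) * q') := by gcongr
        _ = _ := by ring
    exact le_of_mul_le_mul_left h2 hm0R
  have hq'0 : (0 : ℝ) < q' := by linarith
  have hκ2 : (q : ℝ) * q ≤ (q : ℝ) ^ κ := by
    calc (q : ℝ) * q = (q : ℝ) ^ (2 : ℝ) := by rw [← pow_two]; norm_cast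
      _ ≤ _ := Real.rpow_le_rpow_of_exponent_le hq1 (by linarith)
  have hxlt : x < q' := by
    have h1 : (x : ℝ) < q' := by
      have h2 : Z * q ≤ (q : ℝ) ^ κ := by
        calc Z * q ≤ Z * (q : ℝ) ^ w := by
              gcongr
              calc (q : ℝ) = (q : ℝ) ^ (1 : ℝ) := (Real.rpow_one _).symm
                _ ≤ _ := Real.rpow_le_rpow_of_exponent_le hq1 (by linarith)
          _ = (q : ℝ) ^ κ := by rw [hZ, ← Real.rpow_add hq0]; congr 1; ring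
      have hZ0 : 0 < Z := by positivity
      nlinarith
    exact_mod_cast h1
  obtain ⟨p', k1, k2, k3, k4, k5⟩ := step_arith n p q x m s q' hqpos (hxcop q hqodd)
    (hxcop q' hq'odd) hmq' hcong (by omega) hp0 hpq hx0 hxlt
  have hdiff : (p' : ℝ) / q' - p / q = x / (q * q') := by
    have h1 : (p' : ℝ) * q = x + p * q' := by exact_mod_cast k3
    field_simp
    linarith
  have hexp : (q : ℝ) ^ κ * (q : ℝ) ^ (-(w + 1)) * q = Z := by
    have h1 : (q : ℝ) ^ κ * (q : ℝ) ^ (-(w + 1)) * (q : ℝ) ^ (1 : ℝ) = Z := by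
      rw [hZ, ← Real.rpow_add hq0, ← Real.rpow_add hq0]
      congr 1; ring
    rwa [Real.rpow_one] at h1
  have h2n : (1 : ℝ) ≤ 2 ^ n := one_le_pow₀ (by norm_num)
  refine ⟨p', q', s, hq'odd, k1, k4, k5, k2, hs0, ?_, hq'lo, hq'up, ?_, ?_, hslo, hsup7, ?_⟩
  · have h1 : 2 * (q : ℝ) ≤ q' := by nlinarith
    exact_mod_cast h1
  · rw [hdiff, ← mul_div_assoc, le_div_iff₀ (by positivity)]
    calc (q : ℝ) ^ (-(w + 1)) * (q * q')
        ≤ (q : ℝ) ^ (-(w + 1)) * (q * (8 * (2 ^ n + 7) * (q : ℝ) ^ κ)) := by gcongr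
      _ = 8 * (2 ^ n + 7) * ((q : ℝ) ^ κ * (q : ℝ) ^ (-(w + 1)) * q) := by ring
      _ = 8 * (2 ^ n + 7) * Z := by rw [hexp]
      _ ≤ 8 * (2 ^ n + 7) * x := by gcongr
  · rw [hdiff, div_le_iff₀ (by positivity)]
    calc (x : ℝ) ≤ 2 * Z := hxup
      _ = 2 * ((q : ℝ) ^ κ * (q : ℝ) ^ (-(w + 1)) * q) := by rw [hexp]
      _ ≤ 2 * ((3 * q') * (q : ℝ) ^ (-(w + 1)) * q) := by gcongr
      _ = 6 * ((q : ℝ) ^ (-(w + 1)) * (q * q')) := by ring
      _ ≤ 8 * (2 ^ n + 7) * ((q : ℝ) ^ (-(w + 1)) * (q * q')) := by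
          gcongr
          linarith
      _ = _ := by ring
  · have h1 : (m : ℝ) * (2 * s) ≤ m * q' := by
      rw [hmq'R]
      have h7 : (0 : ℝ) < (x : ℝ) ^ n := by positivity
      calc (m : ℝ) * (2 * s) = (2 * m) * s := by ring
        _ ≤ (q : ℝ) ^ n * s := by gcongr
        _ ≤ _ := by linarith
    have h2 : 2 * (s : ℝ) ≤ q' := le_of_mul_le_mul_left h1 hm0R
    exact_mod_cast h2

end Pool.Agent.R330.MI
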