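import Mathlib
import Pool.Agent.R330.MI.ConsB

/-! Monic approximation on the classes `D_{n,w}`: existence of the numbers. -/

set_option autoImplicit false

open Polynomial Finset

namespace Pool.Agent.R330.MI

theorem rpow_le_self_of_le {A t : ℝ} (hA : 1 ≤ A) (_ht : 0 ≤ t) (ht1 : t ≤ 1) : A ^ t ≤ A := by
  calc A ^ t ≤ A ^ (1 : ℝ) := Real.rpow_le_rpow_of_exponent_le hA ht1
    _ = A := Real.rpow_one A

theorem existsA (n : ℕ) (hn : 2 ≤ n) (w κ θ : ℝ) (hw : 2 * ((n : ℝ) - 1) ≤ w)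
    (hκ : κ * ((n : ℝ) - 1) = n * w) (hθ0 : 0 ≤ θ) (hθ : θ ≤ 1 / 2) :
    ∃ (ζ : ℝ) (p q r : ℕ → ℤ) (C : ℝ), Reg n w κ θ ζ p q r C := by
  have hnR : (2 : ℝ) ≤ n := by exact_mod_cast hn
  set C : ℝ := 3 ^ n + 2 ^ n with hC
  have h3n : (1 : ℝ) ≤ 3 ^ n := one_le_pow₀ (by norm_num)
  have h2n : (1 : ℝ) ≤ 2 ^ n := one_le_pow₀ (by norm_num)
  have hC1 : 1 ≤ C := by rw [hC]; linarith
  have hC0 : 0 < C := by linarith
  set Inv : ℤ → ℤ → ℤ → Prop := fun p q r => ∃ ρ : ℤ, InvA n p q ρ ∧ r = -ρ ^ (n - 1) ∧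
    (q : ℝ) ^ θ ≤ C * |(r : ℝ)| ∧ |(r : ℝ)| ≤ C * (q : ℝ) ^ θ ∧ 2 * |r| ≤ q with hInv
  obtain ⟨ζ, p, q, r, h⟩ := exists_reg n w κ θ C hC1 (by linarith) Inv (by
      refine ⟨3, 3 ^ n + 2 ^ (n - 1), -2 ^ (n - 1), 2, ⟨?_, ?_, ⟨1, le_rfl, by norm_num⟩, ?_, ?_,
        by norm_num, ?_⟩, rfl, ?_, ?_, ?_⟩
      · have h1 : (3 : ℤ) ^ 1 ≤ 3 ^ n := pow_le_pow_right₀ (by norm_num) (by omega)
        have h2 : (0 : ℤ) < 2 ^ (n - 1) := by positivity
        linarith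
      · apply Odd.add_even
        · exact Odd.pow (by decide)
        · exact (even_two).pow_of_ne_zero (by omega)
      · have h1 : IsCoprime (3 : ℤ) (2 ^ (n - 1)) := IsCoprime.pow_right ⟨1, -1, by norm_num⟩
        have h2 : (3 : ℤ) ^ n = 3 ^ (n - 1) * 3 := by
          rw [← pow_succ, Nat.sub_add_cancel (by omega)]
        rw [h2, add_comm]
        exact h1.add_mul_right_right _
      · exact dvd_rfl
      · have h1 : (3 : ℤ) ^ 1 ≤ 3 ^ n := pow_le_pow_right₀ (by norm_num) (by omega)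
        have h2 : (0 : ℤ) < 2 ^ (n - 1) := by positivity
        linarith
      · have h1 : (1 : ℝ) ≤ 2 ^ (n - 1) := one_le_pow₀ (by norm_num)
        have h2 : (2 : ℝ) ^ (n - 1) ≤ 2 ^ n := pow_le_pow_right₀ (by norm_num) (by omega)
        push_cast
        rw [abs_neg, abs_of_pos (by positivity)]
        calc ((3 : ℝ) ^ n + 2 ^ (n - 1)) ^ θ ≤ 3 ^ n + 2 ^ (n - 1) :=
              rpow_le_self_of_le (by linarith) hθ0 (by linarith)
          _ ≤ C := by rw [hC]; linarith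
          _ ≤ C * 2 ^ (n - 1) := le_mul_of_one_le_right hC0.le h1
      · have h2 : (2 : ℝ) ^ (n - 1) ≤ 2 ^ n := pow_le_pow_right₀ (by norm_num) (by omega)
        push_cast
        rw [abs_neg, abs_of_pos (by positivity)]
        have h4 : (1 : ℝ) ≤ ((3 : ℝ) ^ n + 2 ^ (n - 1)) ^ θ :=
          Real.one_le_rpow (by
            have : (0 : ℝ) < 2 ^ (n - 1) := by positivity
            linarith) hθ0
        calc (2 : ℝ) ^ (n - 1) ≤ C := by rw [hC]; linarith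
          _ ≤ _ := le_mul_of_one_le_right hC0.le h4
      · rw [abs_neg, abs_of_pos (by positivity)]
        have h2 : (2 : ℤ) ^ (n - 1) ≤ 3 ^ n := by
          calc (2 : ℤ) ^ (n - 1) ≤ 2 ^ n := pow_le_pow_right₀ (by norm_num) (by omega)
            _ ≤ 3 ^ n := pow_le_pow_left₀ (by norm_num) (by norm_num) n
        linarith)
    (by
      rintro p q r ⟨ρ, ⟨h1, h2, h3, h4, h5, h6, h7⟩, rfl, h8, h9, h10⟩
      refine ⟨h1, h6.le, h7.le, h4, ?_, h8, h9, h10⟩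
      rwa [sub_neg_eq_add])
    (by
      rintro p q r ⟨ρ, hA, rfl, h8, h9, h10⟩
      have hq2 : (2 : ℝ) ≤ q := by exact_mod_cast hA.1
      have hq0 : (0 : ℝ) < q := by linarith
      obtain ⟨p', q', ρ', k1, k2, k3, k4, k5, k6, k7, k8, k9⟩ :=
        stepA n hn w κ θ hw hκ hθ0 hθ p q ρ hA
      have hq'0 : (0 : ℝ) < q' := lt_of_lt_of_le (by positivity) k3
      have hρ0 : (0 : ℝ) < (ρ' : ℝ) ^ (n - 1) := lt_of_lt_of_le (by positivity) k7
      have habs : |((-ρ' ^ (n - 1) : ℤ) : ℝ)| = (ρ' : ℝ) ^ (n - 1) := by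
        push_cast; rw [abs_neg, abs_of_pos hρ0]
      refine ⟨p', q', -ρ' ^ (n - 1), ⟨ρ', k1, rfl, ?_, ?_, ?_⟩, k2, k4, k5, k6⟩
      · rw [habs]
        calc (q' : ℝ) ^ θ ≤ (C * (q : ℝ) ^ κ) ^ θ := Real.rpow_le_rpow hq'0.le k4 hθ0
          _ = C ^ θ * (q : ℝ) ^ (κ * θ) := by
              rw [Real.mul_rpow hC0.le (by positivity), ← Real.rpow_mul hq0.le]
          _ ≤ C * (ρ' : ℝ) ^ (n - 1) := by
              gcongr
              exact rpow_le_self_of_le hC1 hθ0 (by linarith)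
      · rw [habs]
        calc (ρ' : ℝ) ^ (n - 1) ≤ 2 ^ n * (q : ℝ) ^ (κ * θ) := k8
          _ = 2 ^ n * ((q : ℝ) ^ κ) ^ θ := by rw [Real.rpow_mul hq0.le]
          _ ≤ C * (q' : ℝ) ^ θ := by
              have : (2 : ℝ) ^ n ≤ C := by rw [hC]; linarith
              gcongr
      · have h11 : 0 < ρ' ^ (n - 1) := by exact_mod_cast hρ0
        rw [abs_neg, abs_of_pos h11]
        exact k9)
  exact ⟨ζ, p, q, r, 2 * C, h⟩

theorem existsB (n : ℕ) (hn : 2 ≤ n) (w κ θ : ℝ) (hw : (n : ℝ) ≤ w)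
    (hκ : κ * ((n : ℝ) - 1) = n * w + 1) (hθ : 1 / 2 ≤ θ) (hθ1 : θ ≤ 1) :
    ∃ (ζ : ℝ) (p q r : ℕ → ℤ) (C : ℝ), Reg n w κ θ ζ p q r C := by
  have hnR : (2 : ℝ) ≤ n := by exact_mod_cast hn
  have hθ0 : 0 ≤ θ := by linarith
  set C : ℝ := 8 * (2 ^ n + 7) with hC
  have h2n : (1 : ℝ) ≤ 2 ^ n := one_le_pow₀ (by norm_num)
  have hC1 : 64 ≤ C := by rw [hC]; linarith
  have hC0 : 0 < C := by linarith
  set Inv : ℤ → ℤ → ℤ → Prop := fun p q r => 8 ≤ q ∧ Odd q ∧ IsCoprime p q ∧ 0 < p ∧ p < q ∧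
    q ∣ p ^ n - r ∧
    (q : ℝ) ^ θ ≤ C * |(r : ℝ)| ∧ |(r : ℝ)| ≤ C * (q : ℝ) ^ θ ∧ 2 * |r| ≤ q with hInv
  obtain ⟨ζ, p, q, r, h⟩ := exists_reg n w κ θ C (by linarith) (by linarith) Inv (by
      refine ⟨1, 9, 1, by norm_num, by decide, isCoprime_one_left, by norm_num, by norm_num,
        by simp, ?_, ?_, by norm_num⟩
      · have := rpow_le_self_of_le (by norm_num : (1 : ℝ) ≤ 9) hθ0 hθ1
        push_cast
        rw [abs_one]
        linarith
      · have : (1 : ℝ) ≤ (9 : ℝ) ^ θ := Real.one_le_rpow (by norm_num) hθ0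
        push_cast
        rw [abs_one]
        nlinarith)
    (by
      rintro p q r ⟨h1, h2, h3, h4, h5, h6, h7, h8, h9⟩
      exact ⟨by omega, h4.le, h5.le, h3, h6, h7, h8, h9⟩)
    (by
      rintro p q r ⟨h1, h2, h3, h4, h5, h6, h7, h8, h9⟩
      have hq2 : (8 : ℝ) ≤ q := by exact_mod_cast h1
      have hq0 : (0 : ℝ) < q := by linarith
      obtain ⟨p', q', s, k1, k2, k3, k4, k5, k6, k7, k8, k9, k10, k11, k12, k13, k14⟩ :=
        stepB n hn w κ θ hw hκ hθ hθ1 p q h1 h2 h3 h4 h5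
      have hq'0 : (0 : ℝ) < q' := by
        have : (0 : ℝ) < (q : ℝ) ^ κ := by positivity
        linarith
      have hs0 : (0 : ℝ) < s := by exact_mod_cast k6
      have habs : |((-s : ℤ) : ℝ)| = s := by
        push_cast; rw [abs_neg, abs_of_pos hs0]
      refine ⟨p', q', -s, ⟨by omega, k1, k2, k3, k4, by rwa [sub_neg_eq_add], ?_, ?_, ?_⟩,
        k7, k9, k10, k11⟩
      · rw [habs]
        calc (q' : ℝ) ^ θ ≤ (C * (q : ℝ) ^ κ) ^ θ := Real.rpow_le_rpow hq'0.le k9 hθ0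
          _ = C ^ θ * (q : ℝ) ^ (κ * θ) := by
              rw [Real.mul_rpow hC0.le (by positivity), ← Real.rpow_mul hq0.le]
          _ ≤ C * s := by
              gcongr
              exact rpow_le_self_of_le (by linarith) hθ0 hθ1
      · rw [habs]
        calc (s : ℝ) ≤ 7 * (q : ℝ) ^ (κ * θ) := k13
          _ = 7 * ((q : ℝ) ^ κ) ^ θ := by rw [Real.rpow_mul hq0.le]
          _ ≤ 7 * (3 * (q' : ℝ)) ^ θ := by gcongr
          _ = 7 * (3 ^ θ * (q' : ℝ) ^ θ) := by rw [Real.mul_rpow (by norm_num) hq'0.le]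
          _ ≤ 7 * (3 * (q' : ℝ) ^ θ) := by
              gcongr
              exact rpow_le_self_of_le (by norm_num) hθ0 hθ1
          _ ≤ C * (q' : ℝ) ^ θ := by
              have : (0 : ℝ) < (q' : ℝ) ^ θ := by positivity
              nlinarith
      · rw [abs_neg, abs_of_pos k6]
        exact k14)
  exact ⟨ζ, p, q, r, 2 * C, h⟩

/-- existence for every `θ ∈ [0, 1]` -/
theorem exists_number (n : ℕ) (hn : 2 ≤ n) (w θ : ℝ) (hnw : (n : ℝ) ≤ w)
    (hw : (n : ℝ) * (n * w + 1) ≤ (n - 1) * w * (w - n + 1)) (hθ0 : 0 ≤ θ) (hθ1 : θ ≤ 1) :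
    ∃ (κ ζ : ℝ) (p q r : ℕ → ℤ) (C : ℝ), Reg n w κ θ ζ p q r C ∧ 0 < κ ∧
      κ * n ≤ w * (w - n + 1) := by
  have hnR : (2 : ℝ) ≤ n := by exact_mod_cast hn
  have hn1 : (0 : ℝ) < (n : ℝ) - 1 := by linarith
  have hw0 : 0 < w := by linarith
  rcases le_total θ (1 / 2) with hθ | hθ
  · have hκ : (n * w / ((n : ℝ) - 1)) * ((n : ℝ) - 1) = n * w := by field_simp
    have h2w : 2 * ((n : ℝ) - 1) ≤ w := by
      by_contra hcon
      push Not at hcon
      have h1 : (n - 1) * w * (w - n + 1) ≤ (n - 1) * w * n := by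
        apply mul_le_mul_of_nonneg_left _ (by positivity)
        linarith
      nlinarith
    obtain ⟨ζ, p, q, r, C, h⟩ := existsA n hn w _ θ h2w hκ hθ0 hθ
    refine ⟨_, ζ, p, q, r, C, h, by positivity, ?_⟩
    have h1 : (n * w / ((n : ℝ) - 1)) * n * ((n : ℝ) - 1) ≤ w * (w - n + 1) * ((n : ℝ) - 1) := by
      have : (n * w / ((n : ℝ) - 1)) * n * ((n : ℝ) - 1) = n * (n * w) := by
        rw [← hκ]; field_simp
      rw [this]; linarith
    exact le_of_mul_le_mul_right h1 hn1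
  · have hκ : ((n * w + 1) / ((n : ℝ) - 1)) * ((n : ℝ) - 1) = n * w + 1 := by field_simp
    obtain ⟨ζ, p, q, r, C, h⟩ := existsB n hn w _ θ hnw hκ hθ hθ1
    refine ⟨_, ζ, p, q, r, C, h, by positivity, ?_⟩
    have h1 : ((n * w + 1) / ((n : ℝ) - 1)) * n * ((n : ℝ) - 1) ≤
        w * (w - n + 1) * ((n : ℝ) - 1) := by
      have : ((n * w + 1) / ((n : ℝ) - 1)) * n * ((n : ℝ) - 1) = n * (n * w + 1) := by
        rw [← hκ]; field_simp
      rw [this]; linarith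
    exact le_of_mul_le_mul_right h1 hn1

end Pool.Agent.R330.MI
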