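import Mathlib
import Pool.Agent.R330.MI.Basic

/-! Monic approximation on the classes `D_{n,w}`: the lower bounds. -/

set_option autoImplicit false

open Polynomial Finset

namespace Pool.Agent.R330.MI

open Pool.Agent.W71 Pool.Agent.TH970.SE Pool.Agent.Y627.SP

/-- every integer is the value of a form with small coefficients -/
theorem digits (p q : ℤ) (hq : 0 < q) (hcop : IsCoprime p q) (m : ℕ) (N : ℤ) :
    ∃ B : ℤ[X], B.natDegree ≤ m ∧ (q : ℝ) ^ m * aeval ((p : ℝ) / q) B = N ∧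
      ∀ i, 1 ≤ i → 0 ≤ B.coeff i ∧ B.coeff i < q := by
  have hqR : (q : ℝ) ≠ 0 := by exact_mod_cast hq.ne'
  induction m generalizing N with
  | zero =>
    refine ⟨C N, by simp, by simp, fun i hi => ?_⟩
    rw [coeff_C, if_neg (by omega)]
    exact ⟨le_rfl, hq⟩
  | succ m ih =>
    obtain ⟨u, v, huv⟩ := hcop.pow_left (m := m + 1)
    set b : ℤ := (N * u) % q with hb
    have hb0 : 0 ≤ b := Int.emod_nonneg _ hq.ne'
    have hbq : b < q := Int.emod_lt_of_pos _ hq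
    have hd : q ∣ N - b * p ^ (m + 1) := by
      have h1 : q ∣ N * u - b := Int.dvd_self_sub_emod
      have h2 : N - b * p ^ (m + 1) = (N * u - b) * p ^ (m + 1) + q * (N * v) := by
        linear_combination - N * huv
      rw [h2]
      exact dvd_add (Dvd.dvd.mul_right h1 _) (dvd_mul_right _ _)
    obtain ⟨N', hN'⟩ := hd
    obtain ⟨B, h1, h2, h3⟩ := ih N'
    refine ⟨B + monomial (m + 1) b, ?_, ?_, ?_⟩
    · refine (natDegree_add_le _ _).trans (max_le (by omega) (natDegree_monomial_le _))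
    · rw [map_add, aeval_monomial]
      have h4 : (N : ℝ) = q * N' + b * p ^ (m + 1) := by
        have : N = q * N' + b * p ^ (m + 1) := by linarith
        exact_mod_cast this
      rw [h4, ← h2]
      simp only [algebraMap_int_eq, eq_intCast, div_pow]
      field_simp
      ring
    · intro i hi
      rw [coeff_add, coeff_monomial]
      split_ifs with h5
      · have h6 : B.coeff i = 0 := coeff_eq_zero_of_natDegree_lt (by omega)
        rw [h6, zero_add]; exact ⟨hb0, hbq⟩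
      · rw [add_zero]; exact h3 i hi

/-- monic polynomials with prescribed value at `p / q` -/
theorem exists_monic (n : ℕ) (hn : 2 ≤ n) (p q r : ℤ) (hq : 2 ≤ q) (hcop : IsCoprime p q)
    (hr : q ∣ p ^ n - r) : ∃ R : ℤ[X], R.Monic ∧ R.natDegree = n ∧
      (q : ℝ) ^ n * aeval ((p : ℝ) / q) R = r ∧
      (∀ i, 1 ≤ i → |(R.coeff i : ℝ)| ≤ q) := by
  have hq0 : (q : ℝ) ≠ 0 := by
    have : (2 : ℝ) ≤ q := by exact_mod_cast hq
    positivity
  obtain ⟨t, ht⟩ := hr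
  obtain ⟨B, h1, h2, h3⟩ := digits p q (by omega) hcop (n - 1) (-t)
  have hdeg : B.degree < (n : ℕ) := by
    refine lt_of_le_of_lt degree_le_natDegree ?_
    exact_mod_cast (by omega : B.natDegree < n)
  have hmon : (X ^ n + B).Monic := monic_X_pow_add hdeg
  have hnd : (X ^ n + B).natDegree = n := by
    rw [natDegree_eq_of_degree_eq_some]
    rw [degree_add_eq_left_of_degree_lt (by rw [degree_X_pow]; exact hdeg), degree_X_pow]
  refine ⟨X ^ n + B, hmon, hnd, ?_, ?_⟩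
  · rw [map_add, map_pow, aeval_X]
    have h4 : (p : ℝ) ^ n - r = q * t := by exact_mod_cast ht
    have h5 : (q : ℝ) ^ n * aeval ((p : ℝ) / q) B = q * (-t) := by
      have : (q : ℝ) ^ n = q * (q : ℝ) ^ (n - 1) := by
        rw [← pow_succ', Nat.sub_add_cancel (by omega)]
      rw [this, mul_assoc, h2]
      push_cast; ring
    rw [mul_add, h5, div_pow]
    field_simp
    linarith
  · intro i hi
    have hqR : (2 : ℝ) ≤ q := by exact_mod_cast hq
    rw [coeff_add, coeff_X_pow]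
    split_ifs with h5
    · have h6 : B.coeff i = 0 := coeff_eq_zero_of_natDegree_lt (by omega)
      rw [h6, add_zero]; simp; linarith
    · rw [zero_add, abs_le]
      obtain ⟨k1, k2⟩ := h3 i hi
      have k1' : (0 : ℝ) ≤ B.coeff i := by exact_mod_cast k1
      have k2' : (B.coeff i : ℝ) < q := by exact_mod_cast k2
      constructor <;> linarith

/-- a monic polynomial which is steep at `ζ` has a root near `ζ` -/
theorem monic_root (n : ℕ) (hn : 2 ≤ n) (ζ : ℝ) (p q m : ℤ) (hq : 2 ≤ q) (R : ℤ[X])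
    (hRm : R.Monic) (hRn : R.natDegree = n) (hRc : ∀ i, 1 ≤ i → |(R.coeff i : ℝ)| ≤ q)
    (hm : 2 * (((n : ℝ) + 1) ^ 2 * (|ζ| + 1) ^ n) + 1 ≤ |(m : ℝ)|)
    (hv : |aeval ζ (R + C m * Lk p q)| ≤ 1) :
    ∃ (α : ℝ) (Q : ℤ[X]), Q.Monic ∧ Irreducible Q ∧ Q.natDegree ≤ n ∧ aeval α Q = 0 ∧
      (hgt Q : ℝ) ≤ 2 ^ n * (n + 1) * (2 * (1 + ((n : ℝ) + 1) ^ 2 * (|ζ| + 1) ^ n * (|ζ| + 1))) *
        (|(m : ℝ)| * q) ∧
      |ζ - α| ≤ 4 * |aeval ζ (R + C m * Lk p q)| / (|(m : ℝ)| * q) := by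
  set P : ℤ[X] := R + C m * Lk p q with hP
  set D : ℝ := ((n : ℝ) + 1) ^ 2 * (|ζ| + 1) ^ n with hD
  have hqR : (2 : ℝ) ≤ q := by exact_mod_cast hq
  have hD1 : 1 ≤ D := by
    have h1 : (1 : ℝ) ≤ ((n : ℝ) + 1) ^ 2 :=
      one_le_pow₀ (by linarith [(Nat.cast_nonneg n : (0 : ℝ) ≤ n)])
    have h2 : (1 : ℝ) ≤ (|ζ| + 1) ^ n := one_le_pow₀ (by linarith [abs_nonneg ζ])
    rw [hD]; exact one_le_mul_of_one_le_of_one_le h1 h2
  have hm1 : 3 ≤ |(m : ℝ)| := by linarith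
  have hA : 1 ≤ |ζ| + 1 := by linarith [abs_nonneg ζ]
  have hc1 : (P.coeff 1 : ℝ) = R.coeff 1 + m * q := by
    rw [hP, coeff_add, coeff_C_mul, Lk_coeff_one]; push_cast; ring
  have hc2 : ∀ i, 2 ≤ i → P.coeff i = R.coeff i := by
    intro i hi
    rw [hP, coeff_add, coeff_C_mul, Lk_coeff_ge _ _ i hi, mul_zero, add_zero]
  have hdegL : (C m * Lk p q).natDegree ≤ 1 := by
    refine (natDegree_C_mul_le _ _).trans ?_
    rw [Lk_natDegree p q (by omega)]
  have hdeglt : (C m * Lk p q).degree < R.degree := by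
    apply degree_lt_degree; omega
  have hPm : P.Monic := hRm.add_of_left hdeglt
  have hPn : P.natDegree = n := by
    rw [hP, natDegree_add_eq_left_of_degree_lt hdeglt, hRn]
  have hc1lo : (|(m : ℝ)| - 1) * q ≤ |(P.coeff 1 : ℝ)| := by
    rw [hc1]
    have h1 := hRc 1 le_rfl
    have h2 : |(m : ℝ) * q| ≤ |(R.coeff 1 : ℝ) + m * q| + |(R.coeff 1 : ℝ)| := by
      have := abs_sub_abs_le_abs_sub ((m : ℝ) * q) (-(R.coeff 1 : ℝ))
      rw [abs_neg, sub_neg_eq_add, add_comm ((m : ℝ) * q)] at this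
      linarith
    rw [abs_mul, abs_of_pos (by linarith : (0 : ℝ) < q)] at h2
    linarith
  have hc1up : |(P.coeff 1 : ℝ)| ≤ (|(m : ℝ)| + 1) * q := by
    rw [hc1]
    have h1 := hRc 1 le_rfl
    refine (abs_add_le _ _).trans ?_
    rw [abs_mul, abs_of_pos (by linarith : (0 : ℝ) < q)]
    linarith
  have hmq : (|(m : ℝ)| - 1) * q ≥ |(m : ℝ)| * q / 2 := by nlinarith
  have hpos : 0 < |(P.coeff 1 : ℝ)| := by
    refine lt_of_lt_of_le ?_ hc1lo
    have : (0 : ℝ) < |(m : ℝ)| - 1 := by linarith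
    positivity
  have h2c : ∀ i, 2 ≤ i → |(P.coeff i : ℝ)| ≤ q := by
    intro i hi; rw [hc2 i hi]; exact hRc i (by omega)
  obtain ⟨α, hα, hαd⟩ := root_near n (by omega) P hPn.le q (by linarith) h2c ζ (|ζ| + 1) rfl
    (by
      refine le_trans ?_ hc1lo
      rw [← hD]
      have : 2 * D ≤ |(m : ℝ)| - 1 := by linarith
      nlinarith) hpos (by
      refine le_trans ?_ hc1lo
      nlinarith)
  have hH : (hgt P : ℝ) ≤ (1 + D * (|ζ| + 1)) * ((|(m : ℝ)| + 1) * q) := by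
    apply hgt_le_of_coeff n P hPn.le _ (by nlinarith) _ ζ (|ζ| + 1) hA (by linarith) hv
    intro i hi
    rcases eq_or_lt_of_le hi with h1 | h1
    · rw [← h1]; exact hc1up
    · refine (h2c i h1).trans ?_
      nlinarith
  obtain ⟨Q, hQi, ⟨S, hS⟩, hQα⟩ := exists_irr_factor P hPm.ne_zero α hα
  have hlc : Q.leadingCoeff * S.leadingCoeff = 1 := by
    rw [← leadingCoeff_mul, ← hS]; exact hPm
  have hP0 : P ≠ 0 := hPm.ne_zero
  have hgel : (hgt Q : ℝ) ≤ 2 ^ n * ((n + 1) * hgt P) := by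
    have := gelfond n Q S (by rw [← hS]; exact hPn.le) (by rw [← hS]; exact hP0)
    rwa [← hS] at this
  have hQn : Q.natDegree ≤ n := by
    rw [← hPn]; exact natDegree_le_of_dvd ⟨S, hS⟩ hP0
  have hHQ : (hgt Q : ℝ) ≤ 2 ^ n * (n + 1) * (2 * (1 + D * (|ζ| + 1))) * (|(m : ℝ)| * q) := by
    have h1 : (1 + D * (|ζ| + 1)) * ((|(m : ℝ)| + 1) * q) ≤
        (1 + D * (|ζ| + 1)) * (2 * (|(m : ℝ)| * q)) := by
      apply mul_le_mul_of_nonneg_left _ (by positivity)
      nlinarith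
    calc (hgt Q : ℝ) ≤ 2 ^ n * ((n + 1) * hgt P) := hgel
      _ ≤ 2 ^ n * ((n + 1) * ((1 + D * (|ζ| + 1)) * (2 * (|(m : ℝ)| * q)))) := by
          have := hH.trans h1
          gcongr
      _ = _ := by ring
  have hdist : |ζ - α| ≤ 4 * |aeval ζ P| / (|(m : ℝ)| * q) := by
    refine hαd.trans ?_
    have hmq0 : 0 < |(m : ℝ)| * q := by positivity
    rw [div_le_div_iff₀ hpos hmq0]
    have h1 : |(m : ℝ)| * q ≤ 2 * |(P.coeff 1 : ℝ)| := by linarith
    have h2 := mul_le_mul_of_nonneg_left h1 (by positivity : (0 : ℝ) ≤ 2 * |aeval ζ P|)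
    linarith
  rcases Int.isUnit_iff.1 (IsUnit.of_mul_eq_one _ hlc) with h1 | h1
  · exact ⟨α, Q, h1, hQi, hQn, hQα, hHQ, hdist⟩
  · refine ⟨α, -Q, ?_, ((Associated.refl Q).neg_right).irreducible hQi, by rwa [natDegree_neg], by rw [map_neg, hQα, neg_zero], ?_, hdist⟩
    · rw [Monic, leadingCoeff_neg, h1, neg_neg]
    · have : hgt (-Q) = hgt Q := by
        unfold hgt
        rw [support_neg]
        congr 1
        funext i
        rw [coeff_neg, Int.natAbs_neg]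
      rw [this]; exact hHQ

variable {n : ℕ} {w κ θ ζ C : ℝ} {p q r : ℕ → ℤ}

/-- the two regimes -/
theorem Reg.regimes (h : Reg n w κ θ ζ p q r C) (hn : 2 ≤ n) (hθ1 : θ ≤ 1)
    (hwe : (n : ℝ) - θ < w) :
    ∃ E1 E2 Q₀ : ℝ, 1 ≤ E1 ∧ 1 ≤ E2 ∧ ∀ k, Q₀ ≤ q k →
      (∃ (α : ℝ) (Q : ℤ[X]), Q.Monic ∧ Irreducible Q ∧ Q.natDegree ≤ n ∧ aeval α Q = 0 ∧
        (hgt Q : ℝ) ≤ E1 * q k ∧
        (hgt Q : ℝ) * |ζ - α| ≤ E2 * (q k : ℝ) ^ (-((n : ℝ) - θ))) ∧
      (∃ (α : ℝ) (Q : ℤ[X]), Q.Monic ∧ Irreducible Q ∧ Q.natDegree ≤ n ∧ aeval α Q = 0 ∧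
        (hgt Q : ℝ) ≤ E2 * (q k : ℝ) ^ (w - (n - θ) + 1) ∧
        (hgt Q : ℝ) * |ζ - α| ≤ E2 * (q k : ℝ) ^ (-w)) := by
  have hC1 := h.C1
  have hC0 : 0 < C := by linarith
  set e : ℝ := (n : ℝ) - θ with hedef
  set D : ℝ := ((n : ℝ) + 1) ^ 2 * (|ζ| + 1) ^ n with hD
  have hD1 : 1 ≤ D := by
    have h1 : (1 : ℝ) ≤ ((n : ℝ) + 1) ^ 2 :=
      one_le_pow₀ (by linarith [(Nat.cast_nonneg n : (0 : ℝ) ≤ n)])
    have h2 : (1 : ℝ) ≤ (|ζ| + 1) ^ n := one_le_pow₀ (by linarith [abs_nonneg ζ])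
    rw [hD]; exact one_le_mul_of_one_le_of_one_le h1 h2
  set E : ℝ := 2 ^ n * (n + 1) * (2 * (1 + D * (|ζ| + 1))) with hE
  have hE1 : 1 ≤ E := by
    have h1 : (1 : ℝ) ≤ 2 ^ n := one_le_pow₀ (by norm_num)
    have h2 : (1 : ℝ) ≤ (n : ℝ) + 1 := by linarith [(Nat.cast_nonneg n : (0 : ℝ) ≤ n)]
    have h3 : (1 : ℝ) ≤ 2 * (1 + D * (|ζ| + 1)) := by
      have : 0 ≤ D * (|ζ| + 1) := by positivity
      linarith
    rw [hE]
    exact one_le_mul_of_one_le_of_one_le (one_le_mul_of_one_le_of_one_le h1 h2) h3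
  have hE0 : 0 < E := by linarith
  set M : ℤ := ⌈2 * D + 1⌉ with hM
  have hM1 : 2 * D + 1 ≤ (M : ℝ) := Int.le_ceil _
  have hM0 : (0 : ℝ) < M := by linarith
  have hMabs : |(M : ℝ)| = M := abs_of_pos hM0
  -- constants
  set A1 : ℝ := C + D * C + M * C with hA1
  have hA1' : 1 ≤ A1 := by
    rw [hA1]
    have : 0 ≤ D * C + M * C := by positivity
    linarith
  set E1 : ℝ := E * M with hE1'
  set E2 : ℝ := max (4 * E * A1) (max (E * (4 * C * C)) (4 * E * C)) with hE2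
  have hnR : (2 : ℝ) ≤ n := by exact_mod_cast hn
  have he0 : 0 < e := by rw [hedef]; linarith
  have hE11 : 1 ≤ E1 := by
    rw [hE1']; exact one_le_mul_of_one_le_of_one_le hE1 (by linarith)
  have hE21 : 1 ≤ E2 := by
    refine le_trans ?_ (le_max_left _ _)
    exact one_le_mul_of_one_le_of_one_le (by linarith) hA1'
  have hev : ∀ᶠ H : ℝ in Filter.atTop, 1 ≤ H ∧ A1 ≤ H ^ e ∧
      2 * D * C * C ≤ H ^ (w - e) ∧ 4 * C * C * (2 * D + 2) ≤ H ^ (w - e) ∧
      C ≤ H ^ w := by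
    have t1 : Filter.Tendsto (fun H : ℝ => H ^ e) Filter.atTop Filter.atTop :=
      tendsto_rpow_atTop he0
    have t2 : Filter.Tendsto (fun H : ℝ => H ^ (w - e)) Filter.atTop Filter.atTop :=
      tendsto_rpow_atTop (by linarith)
    have t3 : Filter.Tendsto (fun H : ℝ => H ^ w) Filter.atTop Filter.atTop :=
      tendsto_rpow_atTop (by linarith)
    filter_upwards [Filter.eventually_ge_atTop (1 : ℝ), t1.eventually_ge_atTop A1,
      t2.eventually_ge_atTop (2 * D * C * C), t2.eventually_ge_atTop (4 * C * C * (2 * D + 2)),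
      t3.eventually_ge_atTop C] with H h1 h2 h3 h4 h5
    exact ⟨h1, h2, h3, h4, h5⟩
  obtain ⟨Q₀, hQ₀⟩ := Filter.eventually_atTop.1 hev
  refine ⟨E1, E2, Q₀, hE11, hE21, fun k hk => ?_⟩
  obtain ⟨b1, b2, b3, b4, b5⟩ := hQ₀ _ hk
  set H : ℝ := (q k : ℝ) with hH
  have hH0 : 0 < H := by linarith
  obtain ⟨R, hRm, hRn, hRv, hRc⟩ := exists_monic n hn (p k) (q k) (r k) (h.q2 k) (h.cop k)
    (h.cong k)
  rw [← hH] at hRv hRc
  have hHn : 0 < H ^ n := by positivity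
  have hHe : H ^ (-e) * H ^ n = H ^ θ := by
    rw [← Real.rpow_natCast, ← Real.rpow_add hH0]; congr 1; rw [hedef]; ring
  have hRx : |aeval ((p k : ℝ) / H) R| * H ^ n = |(r k : ℝ)| := by
    rw [← hRv, abs_mul, abs_of_pos hHn]; ring
  have hRup : |aeval ((p k : ℝ) / H) R| ≤ C * H ^ (-e) := by
    have h1 := h.rup k
    rw [← hH, ← hRx, ← hHe, ← mul_assoc] at h1
    exact le_of_mul_le_mul_right h1 hHn
  have hRlo : H ^ (-e) ≤ C * |aeval ((p k : ℝ) / H) R| := by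
    have h1 := h.rlo k
    rw [← hH, ← hRx, ← hHe, ← mul_assoc] at h1
    exact le_of_mul_le_mul_right h1 hHn
  have hdiff : |aeval ((p k : ℝ) / H) R - aeval ζ R| ≤ D * C * H ^ (-w) := by
    refine (val_diff0 n R hRn.le H hH0.le hRc _ _ (|ζ| + 1) (by linarith [abs_nonneg ζ])
      (h.abs_le k) (by linarith)).trans ?_
    have h1 := h.up k
    rw [← hH] at h1
    calc H * (((n : ℝ) + 1) ^ 2 * (|ζ| + 1) ^ n) * |(p k : ℝ) / H - ζ|
        ≤ H * (((n : ℝ) + 1) ^ 2 * (|ζ| + 1) ^ n) * (C * H ^ (-(w + 1))) := by gcongr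
      _ = D * C * (H ^ (1 : ℝ) * H ^ (-(w + 1))) := by rw [Real.rpow_one, hD]; ring
      _ = D * C * H ^ (-w) := by rw [← Real.rpow_add hH0]; congr 2; ring
  have hwe' : H ^ (-w) * H ^ (w - e) = H ^ (-e) := by
    rw [← Real.rpow_add hH0]; congr 1; ring
  have hw0 : 0 < H ^ (-w) := by positivity
  have he0' : 0 < H ^ (-e) := by positivity
  have hwle : H ^ (-w) ≤ H ^ (-e) := by
    apply Real.rpow_le_rpow_of_exponent_le b1; linarith
  have hL := h.lin_up k
  have hL2 := h.lin_lo k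
  rw [← hH] at hL hL2
  set L : ℝ := aeval ζ (Lk (p k) (q k)) with hLdef
  have hPval : ∀ m : ℤ, aeval ζ (R + Polynomial.C m * Lk (p k) (q k)) = aeval ζ R + m * L := by
    intro m
    rw [map_add, map_mul, aeval_C, ← hLdef]
    simp
  constructor
  · -- first regime
    have hval : |aeval ζ (R + Polynomial.C M * Lk (p k) (q k))| ≤ A1 * H ^ (-e) := by
      rw [hPval]
      have h1 : |aeval ζ R| ≤ C * H ^ (-e) + D * C * H ^ (-w) := by
        have := abs_sub_abs_le_abs_sub (aeval ζ R) (aeval ((p k : ℝ) / H) R)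
        rw [abs_sub_comm] at this
        linarith
      have h2 : |(M : ℝ) * L| ≤ M * (C * H ^ (-w)) := by
        rw [abs_mul, hMabs]
        exact mul_le_mul_of_nonneg_left hL hM0.le
      calc |aeval ζ R + M * L| ≤ |aeval ζ R| + |(M : ℝ) * L| := abs_add_le _ _
        _ ≤ (C * H ^ (-e) + D * C * H ^ (-w)) + M * (C * H ^ (-w)) := add_le_add h1 h2
        _ ≤ (C * H ^ (-e) + D * C * H ^ (-e)) + M * (C * H ^ (-e)) := by gcongr
        _ = A1 * H ^ (-e) := by rw [hA1]; ring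
    have hval1 : A1 * H ^ (-e) ≤ 1 := by
      rw [Real.rpow_neg hH0.le, ← div_eq_mul_inv, div_le_one (by positivity)]; exact b2
    obtain ⟨α, Q, k1, k2, k3, k4, k5, k6⟩ := monic_root n hn ζ (p k) (q k) M (h.q2 k) R hRm hRn
      (by rw [← hH]; exact hRc) (by rw [← hD, hMabs]; exact hM1) (hval.trans hval1)
    rw [← hD, ← hE, hMabs, ← hH] at k5
    rw [hMabs, ← hH] at k6
    refine ⟨α, Q, k1, k2, k3, k4, ?_, ?_⟩
    · rw [hE1']; linarith
    · have hMH : 0 < (M : ℝ) * H := by positivity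
      calc (hgt Q : ℝ) * |ζ - α| ≤ (E * ((M : ℝ) * H)) *
            (4 * (A1 * H ^ (-e)) / (M * H)) := by
            refine mul_le_mul k5 (k6.trans ?_) (abs_nonneg _) (by positivity)
            gcongr
        _ = 4 * E * A1 * H ^ (-e) := by field_simp
        _ ≤ E2 * H ^ (-e) := by
            gcongr
            exact le_max_left _ _
  · -- second regime
    have hL0 : 0 < |L| := by
      have : 0 < C * |L| := lt_of_lt_of_le hw0 hL2
      exact (mul_pos_iff_of_pos_left hC0).1 this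
    have hLne : L ≠ 0 := abs_pos.1 hL0
    have hRζlo : H ^ (-e) ≤ 2 * C * |aeval ζ R| := by
      have h1 : |aeval ((p k : ℝ) / H) R| ≤ |aeval ζ R| + D * C * H ^ (-w) := by
        have := abs_sub_abs_le_abs_sub (aeval ((p k : ℝ) / H) R) (aeval ζ R)
        linarith
      have h2 : C * (D * C * H ^ (-w)) ≤ H ^ (-e) / 2 := by
        rw [← hwe']
        have := mul_le_mul_of_nonneg_left b3 hw0.le
        linarith
      have h3 := mul_le_mul_of_nonneg_left h1 hC0.le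
      linarith
    have hRζup : |aeval ζ R| ≤ 2 * C * H ^ (-e) := by
      have h1 : |aeval ζ R| ≤ |aeval ((p k : ℝ) / H) R| + D * C * H ^ (-w) := by
        have := abs_sub_abs_le_abs_sub (aeval ζ R) (aeval ((p k : ℝ) / H) R)
        rw [abs_sub_comm] at this
        linarith
      have h2 : D * C * H ^ (-w) ≤ C * H ^ (-e) := by
        have h3 : 2 * D * C ≤ H ^ (w - e) := by
          refine le_trans ?_ b3
          have : 0 ≤ 2 * D * C := by positivity
          nlinarith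
        have h4 := mul_le_mul_of_nonneg_left h3 hw0.le
        rw [hwe'] at h4
        have h5 : H ^ (-e) ≤ C * H ^ (-e) := le_mul_of_one_le_left he0'.le hC1
        nlinarith [mul_pos (mul_pos (by linarith : (0 : ℝ) < D) hC0) hw0]
      linarith
    set x : ℝ := -aeval ζ R / L with hx
    have hxabs : |x| = |aeval ζ R| / |L| := by rw [hx, abs_div, abs_neg]
    have hxlo : H ^ (w - e) / (2 * C * C) ≤ |x| := by
      rw [hxabs, div_le_div_iff₀ (by positivity) hL0]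
      calc H ^ (w - e) * |L| ≤ H ^ (w - e) * (C * H ^ (-w)) := by gcongr
        _ = C * (H ^ (-w) * H ^ (w - e)) := by ring
        _ = C * H ^ (-e) := by rw [hwe']
        _ ≤ C * (2 * C * |aeval ζ R|) := by gcongr
        _ = _ := by ring
    have hxup : |x| ≤ 2 * C * C * H ^ (w - e) := by
      rw [hxabs, div_le_iff₀ hL0]
      calc |aeval ζ R| ≤ 2 * C * H ^ (-e) := hRζup
        _ = 2 * C * H ^ (w - e) * H ^ (-w) := by rw [← hwe']; ring
        _ ≤ 2 * C * H ^ (w - e) * (C * |L|) := by gcongr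
        _ = _ := by ring
    set m : ℤ := round x with hm
    have hmx : |x - m| ≤ 1 / 2 := abs_sub_round x
    have hmlo : |x| - 1 / 2 ≤ |(m : ℝ)| := by
      have := abs_sub_abs_le_abs_sub x (m : ℝ)
      linarith
    have hmup : |(m : ℝ)| ≤ |x| + 1 / 2 := by
      have := abs_sub_abs_le_abs_sub (m : ℝ) x
      rw [abs_sub_comm] at this
      linarith
    have hmD : 2 * D + 1 ≤ |(m : ℝ)| := by
      refine le_trans ?_ hmlo
      have h1 : 2 * (2 * D + 2) ≤ H ^ (w - e) / (2 * C * C) := by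
        rw [le_div_iff₀ (by positivity)]; linarith
      linarith
    have hmup2 : |(m : ℝ)| ≤ 4 * C * C * H ^ (w - e) := by
      have h1 : 1 ≤ H ^ (w - e) := Real.one_le_rpow b1 (by linarith)
      have h2 : 1 ≤ C * C * H ^ (w - e) :=
        one_le_mul_of_one_le_of_one_le (one_le_mul_of_one_le_of_one_le hC1 hC1) h1
      linarith
    have hval : |aeval ζ (R + Polynomial.C m * Lk (p k) (q k))| ≤ C * H ^ (-w) := by
      rw [hPval]
      have h1 : aeval ζ R + m * L = -(L * (x - m)) := by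
        rw [hx]; field_simp; ring
      rw [h1, abs_neg, abs_mul]
      calc |L| * |x - m| ≤ |L| * 1 := by gcongr; linarith
        _ = |L| := mul_one _
        _ ≤ _ := hL
    have hval1 : C * H ^ (-w) ≤ 1 := by
      rw [Real.rpow_neg hH0.le, ← div_eq_mul_inv, div_le_one (by positivity)]; exact b5
    obtain ⟨α, Q, k1, k2, k3, k4, k5, k6⟩ := monic_root n hn ζ (p k) (q k) m (h.q2 k) R hRm hRn
      (by rw [← hH]; exact hRc) (by rw [← hD]; exact hmD) (hval.trans hval1)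
    rw [← hD, ← hE, ← hH] at k5
    rw [← hH] at k6
    have hm0 : 0 < |(m : ℝ)| := by linarith
    refine ⟨α, Q, k1, k2, k3, k4, ?_, ?_⟩
    · calc (hgt Q : ℝ) ≤ E * (|(m : ℝ)| * H) := k5
        _ ≤ E * ((4 * C * C * H ^ (w - e)) * H) := by gcongr
        _ = E * (4 * C * C) * (H ^ (w - e) * H ^ (1 : ℝ)) := by rw [Real.rpow_one]; ring
        _ = E * (4 * C * C) * H ^ (w - e + 1) := by rw [← Real.rpow_add hH0]
        _ ≤ E2 * H ^ (w - e + 1) := by
            gcongr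
            exact (le_max_left _ _).trans (le_max_right _ _)
    · have hMH : 0 < |(m : ℝ)| * H := by positivity
      calc (hgt Q : ℝ) * |ζ - α| ≤ (E * (|(m : ℝ)| * H)) *
            (4 * (C * H ^ (-w)) / (|(m : ℝ)| * H)) := by
            refine mul_le_mul k5 (k6.trans ?_) (abs_nonneg _) (by positivity)
            gcongr
        _ = 4 * E * C * H ^ (-w) := by field_simp
        _ ≤ E2 * H ^ (-w) := by
            gcongr
            exact (le_max_right _ _).trans (le_max_right _ _)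

/-- the lower bound for the starred monic exponent -/
theorem Reg.unif_lower (h : Reg n w κ θ ζ p q r C) (hn : 2 ≤ n) (hθ1 : θ ≤ 1)
    (hwe : (n : ℝ) - θ < w) (hκ : 0 < κ) (v : ℝ) (hv : 0 < v)
    (hv1 : v * (w + 1 - (n - θ)) < n - θ) (hv2 : κ * v < w) :
    ∃ X₀ : ℝ, ∀ X : ℝ, X₀ ≤ X → ∃ (α : ℝ) (Q : ℤ[X]), Q.Monic ∧ Irreducible Q ∧
      Q.natDegree ≤ n ∧ aeval α Q = 0 ∧ (hgt Q : ℝ) ≤ X ∧
      (hgt Q : ℝ) * |ζ - α| ≤ X ^ (-v) := by
  obtain ⟨E1, E2, Q₀, hE1, hE2, hreg⟩ := h.regimes hn hθ1 hwe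
  have hC1 := h.C1
  have hC0 : 0 < C := by linarith
  set e : ℝ := (n : ℝ) - θ with hedef
  have hE10 : 0 < E1 := by linarith
  have hE20 : 0 < E2 := by linarith
  have hev : ∀ᶠ H : ℝ in Filter.atTop, Q₀ ≤ H ∧ 1 ≤ H ∧
      E2 * E2 ^ v ≤ H ^ (e - v * (w + 1 - e)) ∧ E2 * (E1 * C) ^ v ≤ H ^ (w - κ * v) := by
    filter_upwards [Filter.eventually_ge_atTop Q₀, Filter.eventually_ge_atTop (1 : ℝ),
      (tendsto_rpow_atTop (sub_pos.2 hv1)).eventually_ge_atTop _,
      (tendsto_rpow_atTop (sub_pos.2 hv2)).eventually_ge_atTop _] with H h1 h2 h3 h4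
    exact ⟨h1, h2, h3, h4⟩
  obtain ⟨Q₁, hQ₁⟩ := Filter.eventually_atTop.1 hev
  set Q₂ : ℝ := max Q₁ 1 with hQ₂
  refine ⟨max (E1 * q 0) (E1 * (C * Q₂ ^ κ)), fun X hX => ?_⟩
  have hX1 : E1 * q 0 ≤ X := (le_max_left _ _).trans hX
  have hX2 : E1 * (C * Q₂ ^ κ) ≤ X := (le_max_right _ _).trans hX
  have hq00 : (2 : ℝ) ≤ q 0 := h.q0 0
  have hX0 : 0 < X := by nlinarith
  have hex : ∃ j, X < E1 * q j := by
    obtain ⟨j, hj⟩ := (h.qtop.eventually_gt_atTop (X / E1)).exists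
    rw [div_lt_iff₀ hE10] at hj
    exact ⟨j, by linarith⟩
  classical
  set j := Nat.find hex with hj
  have hj1 : X < E1 * q j := Nat.find_spec hex
  have hj0 : j ≠ 0 := by
    intro h0
    rw [h0] at hj1
    linarith
  obtain ⟨k, hk⟩ : ∃ k, j = k + 1 := ⟨j - 1, by omega⟩
  have hk1 : ¬ X < E1 * q k := Nat.find_min hex (by omega)
  push Not at hk1
  have hqk2 : (2 : ℝ) ≤ q k := h.q0 k
  have hqk0 : (0 : ℝ) < q k := by linarith
  have hg := h.grow k
  rw [← hk] at hg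
  have hXup : X < (E1 * C) * (q k : ℝ) ^ κ := by
    calc X < E1 * q j := hj1
      _ ≤ E1 * (C * (q k : ℝ) ^ κ) := by gcongr
      _ = _ := by ring
  have hqQ : Q₂ ≤ q k := by
    have h1 : (E1 * C) * Q₂ ^ κ < (E1 * C) * (q k : ℝ) ^ κ := by
      refine lt_of_le_of_lt ?_ hXup
      linarith
    have h2 := lt_of_mul_lt_mul_left h1 (by positivity)
    exact ((Real.rpow_lt_rpow_iff (by positivity) hqk0.le hκ).1 h2).le
  obtain ⟨c1, c2, c3, c4⟩ := hQ₁ _ ((le_max_left _ _).trans hqQ)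
  obtain ⟨⟨α, Q, k1, k2, k3, k4, k5, k6⟩, ⟨α', Q', l1, l2, l3, l4, l5, l6⟩⟩ := hreg k c1
  set H : ℝ := (q k : ℝ) with hH
  rcases lt_or_ge X (E2 * H ^ (w - e + 1)) with hcase | hcase
  · refine ⟨α, Q, k1, k2, k3, k4, k5.trans hk1, k6.trans ?_⟩
    have h1 : X ^ v ≤ E2 ^ v * H ^ (v * (w + 1 - e)) := by
      calc X ^ v ≤ (E2 * H ^ (w - e + 1)) ^ v := Real.rpow_le_rpow hX0.le hcase.le hv.le
        _ = E2 ^ v * H ^ (v * (w + 1 - e)) := by
            rw [Real.mul_rpow hE20.le (by positivity), ← Real.rpow_mul hqk0.le]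
            congr 2; ring
    rw [Real.rpow_neg hX0.le]
    rw [← one_div, le_div_iff₀ (by positivity)]
    calc E2 * H ^ (-e) * X ^ v ≤ E2 * H ^ (-e) * (E2 ^ v * H ^ (v * (w + 1 - e))) := by gcongr
      _ = (E2 * E2 ^ v) * (H ^ (-e) * H ^ (v * (w + 1 - e))) := by ring
      _ ≤ H ^ (e - v * (w + 1 - e)) * (H ^ (-e) * H ^ (v * (w + 1 - e))) := by gcongr
      _ = 1 := by
          rw [← Real.rpow_add hqk0, ← Real.rpow_add hqk0]
          have : e - v * (w + 1 - e) + (-e + v * (w + 1 - e)) = 0 := by ring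
          rw [this, Real.rpow_zero]
  · refine ⟨α', Q', l1, l2, l3, l4, l5.trans hcase, l6.trans ?_⟩
    have h1 : X ^ v ≤ (E1 * C) ^ v * H ^ (κ * v) := by
      calc X ^ v ≤ ((E1 * C) * H ^ κ) ^ v := Real.rpow_le_rpow hX0.le hXup.le hv.le
        _ = _ := by
            rw [Real.mul_rpow (by positivity) (by positivity), ← Real.rpow_mul hqk0.le]
    rw [Real.rpow_neg hX0.le]
    rw [← one_div, le_div_iff₀ (by positivity)]
    calc E2 * H ^ (-w) * X ^ v ≤ E2 * H ^ (-w) * ((E1 * C) ^ v * H ^ (κ * v)) := by gcongr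
      _ = (E2 * (E1 * C) ^ v) * (H ^ (-w) * H ^ (κ * v)) := by ring
      _ ≤ H ^ (w - κ * v) * (H ^ (-w) * H ^ (κ * v)) := by gcongr
      _ = 1 := by
          rw [← Real.rpow_add hqk0, ← Real.rpow_add hqk0]
          have : w - κ * v + (-w + κ * v) = 0 := by ring
          rw [this, Real.rpow_zero]

end Pool.Agent.R330.MI
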